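import Pool.Agent.Helper63.NPD.Fin
import Pool.Agent.Helper37.RP.Pr2

/-!
# Every point has a point over it
-/

namespace Pool.Agent.Helper63.NPD

open MvPolynomial Pool.Agent.Helper37.RP

variable {k : Type*} [Field k] [IsAlgClosed k]

theorem exists_point {m n : ℕ} (hmn : m + 2 ≤ n) (L : Fin m → Matrix (Fin n) (Fin n) k)
    (Q : Fin n → Fin n → Fin n → Fin n → k) (y : Fin n → k) :
    ∃ x : Fin n → k, x ≠ 0 ∧ (∀ r, OnL (L r) x y) ∧ OnQ Q x y := by
  obtain ⟨x, hx, h1, h2⟩ := exists_zero hmn (fun r i => aeval y (lin (L r) i))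
    ((quad Q).map (aeval y : MvPolynomial (Fin n) k →ₐ[k] k))
  refine ⟨x, hx, fun r => (onL_iff (L r) x y).2 (h1 r), (onQ_iff Q x y).2 ?_⟩
  rw [← h2]
  unfold bil
  refine Finset.sum_congr rfl fun i _ => Finset.sum_congr rfl fun j _ => ?_
  ring

end Pool.Agent.Helper63.NPD
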