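import Mathlib

/-!
# Finiteness of the zeros of forms without common zero on a hyperplane
-/

namespace Pool.Agent.Helper63.NPD

open MvPolynomial

/-- If every coordinate has a power which is a polynomial of smaller degree, the set is finite. -/
theorem finite_of_pow {k : Type*} [Field k] {n : ℕ} {Z : Set (Fin n → k)} {N : ℕ} (hN : 0 < N)
    (B : Fin n → MvPolynomial (Fin n) k) (hB : ∀ i, (B i).totalDegree < N)
    (h : ∀ x ∈ Z, ∀ i, x i ^ N = eval x (B i)) : Z.Finite := by
  classical
  let mon : (Fin n →₀ ℕ) → Z → k := fun m x => ∏ i, (x : Fin n → k) i ^ m i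
  let gen : Set (Z → k) := Set.range fun m : Fin n → Fin N => fun x : Z =>
    ∏ i, (x : Fin n → k) i ^ (m i : ℕ)
  let W : Submodule k (Z → k) := Submodule.span k gen
  have hfin : gen.Finite := Set.finite_range _
  have hW : FiniteDimensional k W := FiniteDimensional.span_of_finite k hfin
  have key : ∀ d : ℕ, ∀ m : Fin n →₀ ℕ, m.degree = d → mon m ∈ W := by
    intro d
    induction d using Nat.strong_induction_on with
    | _ d ih =>
      intro m hm
      by_cases hlt : ∀ i, m i < N
      · exact Submodule.subset_span ⟨fun i => ⟨m i, hlt i⟩, rfl⟩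
      · push Not at hlt
        obtain ⟨i, hi⟩ := hlt
        let m' : Fin n →₀ ℕ := m - Finsupp.single i N
        have hle : Finsupp.single i N ≤ m := by
          rw [Finsupp.single_le_iff]
          exact hi
        have hm' : m' + Finsupp.single i N = m := tsub_add_cancel_of_le hle
        have hdeg : m'.degree + N = d := by
          rw [← hm, ← hm', map_add, Finsupp.degree_single]
        have hmonadd : ∀ a b : Fin n →₀ ℕ, mon (a + b) = mon a * mon b := by
          intro a b
          funext x
          simp only [mon, Pi.mul_apply, ← Finset.prod_mul_distrib, Finsupp.add_apply, pow_add]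
        have h1 : mon m = ∑ s ∈ (B i).support, (B i).coeff s • mon (m' + s) := by
          funext x
          have h2 : mon (Finsupp.single i N) x = eval (x : Fin n → k) (B i) := by
            rw [← h x x.2 i]
            simp only [mon]
            rw [Finset.prod_eq_single i]
            · simp
            · intro j _ hj
              simp [Finsupp.single_eq_of_ne hj]
            · simp
          rw [← hm', hmonadd, Pi.mul_apply, h2, eval_eq', Finset.mul_sum, Finset.sum_apply]
          refine Finset.sum_congr rfl fun s _ => ?_
          rw [hmonadd, Pi.smul_apply, Pi.mul_apply, smul_eq_mul]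
          simp only [mon]
          ring
        rw [h1]
        refine Submodule.sum_mem _ fun s hs => Submodule.smul_mem _ _ ?_
        refine ih _ ?_ _ rfl
        have h3 : s.degree ≤ (B i).totalDegree := by
          have := le_totalDegree hs
          simpa [Finsupp.degree, Finsupp.sum] using this
        have h4 := hB i
        rw [map_add]
        omega
  have hone : (1 : Z → k) ∈ W := by
    have h1 := key 0 0 (by simp)
    have h2 : mon 0 = 1 := by
      funext x
      simp [mon]
    rwa [h2] at h1
  have hcoord : ∀ i : Fin n, ∀ f ∈ W, (fun x : Z => (x : Fin n → k) i) * f ∈ W := by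
    intro i f hf
    induction hf using Submodule.span_induction with
    | mem f hf =>
      obtain ⟨m, rfl⟩ := hf
      let m' : Fin n →₀ ℕ := Finsupp.equivFunOnFinite.symm (fun j => (m j : ℕ)) + Finsupp.single i 1
      have h1 : (fun x : Z => (x : Fin n → k) i) * (fun x : Z => ∏ j, (x : Fin n → k) j ^ (m j : ℕ))
          = mon m' := by
        funext x
        simp only [mon, m', Pi.mul_apply, Finsupp.add_apply, pow_add, Finset.prod_mul_distrib]
        rw [mul_comm]
        congr 1
        rw [Finset.prod_eq_single i]
        · simp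
        · intro j _ hj
          simp [Finsupp.single_eq_of_ne hj]
        · simp
      rw [h1]
      exact key _ _ rfl
    | zero => simp
    | add f g _ _ hf hg =>
      rw [mul_add]
      exact Submodule.add_mem _ hf hg
    | smul c f _ hf =>
      rw [mul_smul_comm]
      exact Submodule.smul_mem _ _ hf
  have hpoly : ∀ i : Fin n, ∃ P : Polynomial k, P ≠ 0 ∧ ∀ x ∈ Z, P.eval (x i) = 0 := by
    intro i
    let T : W →ₗ[k] W :=
      { toFun := fun f => ⟨(fun x : Z => (x : Fin n → k) i) * f, hcoord i f f.2⟩
        map_add' := fun f g => Subtype.ext (mul_add _ _ _)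
        map_smul' := fun c f => Subtype.ext (mul_smul_comm _ _ _) }
    refine ⟨T.charpoly, (LinearMap.charpoly_monic T).ne_zero, ?_⟩
    have hT : ∀ (P : Polynomial k) (f : W) (x : Z),
        ((Polynomial.aeval T P f : W) : Z → k) x = P.eval ((x : Fin n → k) i) * (f : Z → k) x := by
      intro P
      induction P using Polynomial.induction_on' with
      | add p q hp hq =>
        intro f x
        rw [map_add, LinearMap.add_apply, Submodule.coe_add, Pi.add_apply, hp, hq,
          Polynomial.eval_add, add_mul]
      | monomial m c =>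
        intro f x
        rw [Polynomial.aeval_monomial, Polynomial.eval_monomial]
        have hpow : ∀ (m : ℕ) (f : W), (((T ^ m) f : W) : Z → k) x =
            (x : Fin n → k) i ^ m * (f : Z → k) x := by
          intro m
          induction m with
          | zero => intro f; simp
          | succ m ih =>
            intro f
            rw [pow_succ, Module.End.mul_apply, ih, pow_succ, mul_assoc]
            rfl
        rw [Module.End.mul_apply, Module.algebraMap_end_apply, Submodule.coe_smul, Pi.smul_apply,
          hpow, smul_eq_mul]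
        ring
    intro x hx
    have h1 := hT T.charpoly ⟨1, hone⟩ ⟨x, hx⟩
    rw [LinearMap.aeval_self_charpoly] at h1
    simpa using h1.symm
  choose P hP hPZ using hpoly
  refine (Set.Finite.pi' fun i => (Polynomial.finite_setOf_isRoot (hP i))).subset ?_
  intro x hx i
  exact hPZ i x hx

theorem homogComp_mul {k : Type*} [Field k] {σ : Type*} {D : MvPolynomial σ k} {n : ℕ}
    (hD : D.IsHomogeneous n) (a : MvPolynomial σ k) (N : ℕ) :
    homogeneousComponent N (D * a) =
      if n ≤ N then D * homogeneousComponent (N - n) a else 0 := by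
  classical
  have h1 : D * a = ∑ i ∈ Finset.range (a.totalDegree + 1), D * homogeneousComponent i a := by
    rw [← Finset.mul_sum, sum_homogeneousComponent]
  have h2 : ∀ i, homogeneousComponent N (D * homogeneousComponent i a) =
      if N = n + i then D * homogeneousComponent i a else 0 := fun i =>
    homogeneousComponent_of_mem (hD.mul (homogeneousComponent_isHomogeneous i a))
  rw [h1, map_sum, Finset.sum_congr rfl fun i _ => h2 i]
  split_ifs with h3
  · by_cases h4 : N - n ∈ Finset.range (a.totalDegree + 1)
    · rw [Finset.sum_eq_single_of_mem _ h4, if_pos (by omega)]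
      intro j _ hj
      rw [if_neg (by omega)]
    · rw [Finset.mem_range, not_lt] at h4
      rw [Finset.sum_eq_zero, homogeneousComponent_eq_zero, mul_zero]
      · omega
      · intro j hj
        rw [Finset.mem_range] at hj
        rw [if_neg (by omega)]
  · refine Finset.sum_eq_zero fun j _ => ?_
    rw [if_neg (by omega)]

/-- Forms which have no common zero on a hyperplane have finitely many common zeros. -/
theorem finite_zeros {k : Type*} [Field k] [IsAlgClosed k] {n : ℕ} {ι : Type*}
    (F : ι → MvPolynomial (Fin n) k) (hF : ∀ i, ∃ d, (F i).IsHomogeneous d)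
    (l : MvPolynomial (Fin n) k) (hl : l.IsHomogeneous 1)
    (hno : ∀ x : Fin n → k, (∀ i, eval x (F i) = 0) → eval x l = 0 → x = 0) :
    {x : Fin n → k | (∀ i, eval x (F i) = 0) ∧ eval x l = 1}.Finite := by
  classical
  choose d hd using hF
  set I : Ideal (MvPolynomial (Fin n) k) := Ideal.span (Set.range F) ⊔ Ideal.span {l} with hI
  have hX : ∀ i : Fin n, ∃ N, (X i : MvPolynomial (Fin n) k) ^ N ∈ I := by
    intro i
    have h1 : (X i : MvPolynomial (Fin n) k) ∈ I.radical := by
      rw [← vanishingIdeal_zeroLocus_eq_radical (K := k)]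
      intro x hx
      have h2 : x = 0 := by
        refine hno x (fun j => ?_) ?_
        · have := hx (F j) (Ideal.mem_sup_left (Ideal.subset_span ⟨j, rfl⟩))
          simpa [aeval_eq_eval] using this
        · have := hx l (Ideal.mem_sup_right (Ideal.subset_span rfl))
          simpa [aeval_eq_eval] using this
      rw [h2]
      simp
    exact h1
  choose N hN using hX
  set M := ∑ i, N i + 1 with hM
  have hXM : ∀ i : Fin n, (X i : MvPolynomial (Fin n) k) ^ M ∈ I := by
    intro i
    have h1 : N i ≤ ∑ j, N j := Finset.single_le_sum (fun j _ => Nat.zero_le _) (Finset.mem_univ i)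
    have h2 : M = N i + (M - N i) := by omega
    rw [h2, pow_add]
    exact Ideal.mul_mem_right _ _ (hN i)
  have hB : ∀ i : Fin n, ∃ B : MvPolynomial (Fin n) k, B.IsHomogeneous (M - 1) ∧
      ∀ x : Fin n → k, (∀ j, eval x (F j) = 0) → x i ^ M = eval x B * eval x l := by
    intro i
    obtain ⟨a, ha, b, hb, hab⟩ := Submodule.mem_sup.1 (hXM i)
    obtain ⟨B, hB⟩ := Ideal.mem_span_singleton'.1 hb
    refine ⟨homogeneousComponent (M - 1) B, homogeneousComponent_isHomogeneous _ _, ?_⟩
    intro x hx
    have h1 : ∀ a ∈ Ideal.span (Set.range F), ∀ N, eval x (homogeneousComponent N a) = 0 := by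
      intro a ha
      induction ha using Submodule.span_induction with
      | mem a ha =>
        obtain ⟨j, rfl⟩ := ha
        intro N
        rw [homogeneousComponent_of_mem (hd j)]
        split_ifs
        · exact hx j
        · exact map_zero _
      | zero => simp
      | add a b _ _ ha hb =>
        intro N
        rw [map_add, map_add, ha, hb, add_zero]
      | smul c a _ ha =>
        intro N
        rw [smul_eq_mul]
        have h2 : a = ∑ i ∈ Finset.range (a.totalDegree + 1), homogeneousComponent i a :=
          (sum_homogeneousComponent a).symm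
        rw [h2, Finset.mul_sum, map_sum, map_sum]
        refine Finset.sum_eq_zero fun j _ => ?_
        rw [mul_comm, homogComp_mul (homogeneousComponent_isHomogeneous j a)]
        split_ifs
        · rw [map_mul, ha, zero_mul]
        · exact map_zero _
    have h3 : homogeneousComponent M ((X i : MvPolynomial (Fin n) k) ^ M) = X i ^ M := by
      have h4 := (isHomogeneous_X_pow (R := k) i M)
      exact homogeneousComponent_eq_self h4
    have h5 : eval x (homogeneousComponent M ((X i : MvPolynomial (Fin n) k) ^ M)) =
        eval x (homogeneousComponent M a) + eval x (homogeneousComponent M b) := by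
      rw [← hab, map_add, map_add]
    rw [h3, h1 a ha, ← hB, mul_comm B l, homogComp_mul hl, if_pos (by omega)] at h5
    simp only [map_pow, eval_X, map_mul, zero_add] at h5
    rw [h5]
    ring
  choose B hBh hB using hB
  refine finite_of_pow (N := M) (by omega) B (fun i => ?_) ?_
  · by_cases h0 : B i = 0
    · rw [h0]
      simp
      omega
    · rw [(hBh i).totalDegree h0]
      omega
  · rintro x ⟨hx1, hx2⟩ i
    rw [hB i x hx1, hx2, mul_one]

/-- A polynomial which vanishes on the zeros of the irreducible `u` off the zeros of `B`. -/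
theorem dvd_of_vanish {k : Type*} [Field k] [IsAlgClosed k] {n : ℕ}
    {u F B : MvPolynomial (Fin n) k} (hu : Irreducible u) (hB : ¬ u ∣ B)
    (h : ∀ y : Fin n → k, eval y u = 0 → eval y B ≠ 0 → eval y F = 0) : u ∣ F := by
  have hp : Prime u := hu.prime
  have h1 : F * B ∈ (Ideal.span {u}).radical := by
    rw [← vanishingIdeal_zeroLocus_eq_radical (K := k)]
    intro y hy
    have h2 : eval y u = 0 := by
      have := hy u (Ideal.subset_span rfl)
      simpa [aeval_eq_eval] using this
    rw [aeval_eq_eval]
    change eval y (F * B) = 0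
    rw [map_mul]
    by_cases h3 : eval y B = 0
    · rw [h3, mul_zero]
    · rw [h y h2 h3, zero_mul]
  have h4 : (Ideal.span {u}).IsPrime := by
    rw [Ideal.span_singleton_prime hp.ne_zero]
    exact hp
  rw [h4.isRadical.radical, Ideal.mem_span_singleton] at h1
  exact (hp.dvd_or_dvd h1).resolve_right hB

theorem exists_not_dvd_X {k : Type*} [Field k] {n : ℕ} (hn : 2 ≤ n)
    {u : MvPolynomial (Fin n) k} (hu : Irreducible u) : ∃ i, ¬ u ∣ X i := by
  by_contra hcon
  push Not at hcon
  let i : Fin n := ⟨0, by omega⟩
  let j : Fin n := ⟨1, by omega⟩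
  have hij : i ≠ j := by
    intro h
    have := congrArg Fin.val h
    simp [i, j] at this
  have h1 : Associated u (X i) := hu.associated_of_dvd (X_prime (i := i)).irreducible (hcon i)
  have h2 : Associated u (X j) := hu.associated_of_dvd (X_prime (i := j)).irreducible (hcon j)
  have h3 : (X i : MvPolynomial (Fin n) k) ∣ X j := (h1.symm.trans h2).dvd
  obtain ⟨c, hc⟩ := h3
  have h4 := congrArg (eval (fun l => if l = j then (1 : k) else 0)) hc
  simp [hij] at h4

/-- The same, with nonzero points only. -/
theorem dvd_of_vanish' {k : Type*} [Field k] [IsAlgClosed k] {n : ℕ} (hn : 2 ≤ n)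
    {u F B : MvPolynomial (Fin n) k} (hu : Irreducible u) (hB : ¬ u ∣ B)
    (h : ∀ y : Fin n → k, y ≠ 0 → eval y u = 0 → eval y B ≠ 0 → eval y F = 0) : u ∣ F := by
  obtain ⟨i, hi⟩ := exists_not_dvd_X hn hu
  refine dvd_of_vanish (B := B * X i) hu ?_ ?_
  · intro h1
    rcases hu.prime.dvd_or_dvd h1 with h2 | h2
    · exact hB h2
    · exact hi h2
  · intro y hy1 hy2
    rw [map_mul, eval_X] at hy2
    refine h y ?_ hy1 (left_ne_zero_of_mul hy2)
    rintro rfl
    exact right_ne_zero_of_mul hy2 rfl

/-- A quadratic form has a nonzero zero in a space of dimension at least two. -/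
theorem exists_isotropic {k : Type*} [Field k] [IsAlgClosed k] {V : Type*} [AddCommGroup V]
    [Module k V] [FiniteDimensional k V] (W : Submodule k V) (hW : 2 ≤ Module.finrank k W)
    (q : V → k) (A B C : V → V → k)
    (hq : ∀ x y : V, ∀ s t : k, q (s • x + t • y) = s ^ 2 * A x y + s * t * B x y + t ^ 2 * C x y) :
    ∃ x ∈ W, x ≠ 0 ∧ q x = 0 := by
  obtain ⟨f, hf⟩ := exists_linearIndependent_of_le_finrank hW
  have hx0 : (f 0 : V) ≠ 0 := fun h => hf.ne_zero 0 (Subtype.ext h)
  have hlin : ∀ s t : k, s • (f 0 : V) + t • (f 1 : V) = 0 → s = 0 ∧ t = 0 := by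
    intro s t h
    have h1 : s • f 0 + t • f 1 = 0 := Subtype.ext (by simpa using h)
    rw [LinearIndependent.pair_iff.1 (by
      have := hf
      rw [show f = ![f 0, f 1] by ext i; fin_cases i <;> rfl] at this
      exact this) s t h1 |>.1]
    exact ⟨rfl, (LinearIndependent.pair_iff.1 (by
      have := hf
      rw [show f = ![f 0, f 1] by ext i; fin_cases i <;> rfl] at this
      exact this) s t h1).2⟩
  set x : V := (f 0 : V)
  set y : V := (f 1 : V)
  by_cases hA : A x y = 0
  · refine ⟨x, (f 0).2, hx0, ?_⟩
    have h := hq x y 1 0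
    simp only [one_smul, zero_smul, add_zero] at h
    rw [h, hA]
    ring
  · obtain ⟨s, hs⟩ := IsAlgClosed.exists_root
      (Polynomial.C (A x y) * Polynomial.X ^ 2 + Polynomial.C (B x y) * Polynomial.X +
        Polynomial.C (C x y)) (by rw [Polynomial.degree_quadratic hA]; decide)
    refine ⟨s • x + (1 : k) • y, W.add_mem (W.smul_mem _ (f 0).2) (W.smul_mem _ (f 1).2), ?_, ?_⟩
    · intro h
      exact one_ne_zero (hlin s 1 h).2
    · rw [hq]
      simp only [Polynomial.IsRoot.def, Polynomial.eval_add, Polynomial.eval_mul,
        Polynomial.eval_C, Polynomial.eval_pow, Polynomial.eval_X] at hs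
      linear_combination hs

/-- Zeros of quadratic forms on the common kernel of `m` linear forms in `m + 2` variables. -/
theorem exists_zero {k : Type*} [Field k] [IsAlgClosed k] {m n : ℕ} (hmn : m + 2 ≤ n)
    (a : Fin m → Fin n → k) (M : Matrix (Fin n) (Fin n) k) :
    ∃ x : Fin n → k, x ≠ 0 ∧ (∀ r, ∑ i, a r i * x i = 0) ∧ ∑ i, ∑ j, M i j * (x i * x j) = 0 := by
  let φ : (Fin n → k) →ₗ[k] (Fin m → k) := Matrix.mulVecLin (Matrix.of a)
  have h1 := LinearMap.finrank_range_add_finrank_ker φ
  have h2 : Module.finrank k (LinearMap.range φ) ≤ m := by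
    have := Submodule.finrank_le (LinearMap.range φ)
    simpa using this
  have h3 : 2 ≤ Module.finrank k (LinearMap.ker φ) := by
    rw [Module.finrank_fin_fun] at h1
    omega
  obtain ⟨x, hx, hx0, hq⟩ := exists_isotropic (LinearMap.ker φ) h3
    (fun x => ∑ i, ∑ j, M i j * (x i * x j))
    (fun x _ => ∑ i, ∑ j, M i j * (x i * x j))
    (fun x y => ∑ i, ∑ j, M i j * (x i * y j + y i * x j))
    (fun _ y => ∑ i, ∑ j, M i j * (y i * y j)) (by
      intro x y s t
      simp only [Finset.mul_sum, ← Finset.sum_add_distrib, Pi.add_apply, Pi.smul_apply, smul_eq_mul]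
      refine Finset.sum_congr rfl fun i _ => Finset.sum_congr rfl fun j _ => ?_
      ring)
  refine ⟨x, hx0, fun r => ?_, hq⟩
  have := congrFun (LinearMap.mem_ker.1 hx) r
  simpa [φ, Matrix.mulVec, dotProduct] using this

end Pool.Agent.Helper63.NPD
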