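import Pool.Agent.Helper63.NPD.Fin
import Pool.Agent.Helper37.RP.Pr2

/-!
# Forms vanishing at the good zeros of an irreducible form
-/

namespace Pool.Agent.Helper63.NPD

open MvPolynomial Pool.Agent.Helper37.RP

variable {k : Type*} [Field k]

theorem eval_smul' {n : ℕ} {G : MvPolynomial (Fin n) k} {g : ℕ} (hG : G.IsHomogeneous g) (c : k)
    (y : Fin n → k) : eval (c • y) G = c ^ g * eval y G := by
  rw [eval_eq, eval_eq, Finset.mul_sum]
  refine Finset.sum_congr rfl fun d hd => ?_
  have h := hG (mem_support_iff.1 hd)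
  have h1 : ∏ i ∈ d.support, (c • y) i ^ d i = c ^ g * ∏ i ∈ d.support, y i ^ d i := by
    simp_rw [Pi.smul_apply, smul_eq_mul, mul_pow]
    rw [Finset.prod_mul_distrib, Finset.prod_pow_eq_pow_sum]
    congr 2
    rw [← h, Finsupp.weight_apply, Finsupp.sum]
    simp
  rw [h1]
  ring

/-- The form `L(x, .)`. -/
noncomputable def fL {n : ℕ} (L : Matrix (Fin n) (Fin n) k) (x : Fin n → k) :
    MvPolynomial (Fin n) k := ∑ i, C (x i) * lin L i

/-- The form `Q(x, .)`. -/
noncomputable def fQ {n : ℕ} (Q : Fin n → Fin n → Fin n → Fin n → k) (x : Fin n → k) :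
    MvPolynomial (Fin n) k := ∑ i, ∑ j, C (x i * x j) * quad Q i j

theorem eval_fL {n : ℕ} (L : Matrix (Fin n) (Fin n) k) (x y : Fin n → k) :
    eval y (fL L x) = 0 ↔ OnL L x y := by
  rw [onL_iff]
  simp only [fL, map_sum, map_mul, eval_C, aeval_eq_eval]
  constructor
  · intro h
    rw [← h]
    exact Finset.sum_congr rfl fun i _ => mul_comm _ _
  · intro h
    rw [← h]
    exact Finset.sum_congr rfl fun i _ => mul_comm _ _

theorem eval_fQ {n : ℕ} (Q : Fin n → Fin n → Fin n → Fin n → k) (x y : Fin n → k) :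
    eval y (fQ Q x) = 0 ↔ OnQ Q x y := by
  have h : eval y (fQ Q x) = ∑ i, ∑ j, ∑ r, ∑ l, algebraMap k k (Q i j r l) *
      (x i * x j * (y r * y l)) := by
    simp only [fQ, quad, Matrix.of_apply, map_sum, map_mul, eval_C, eval_X, Finset.mul_sum]
    refine Finset.sum_congr rfl fun i _ => Finset.sum_congr rfl fun j _ =>
      Finset.sum_congr rfl fun r _ => Finset.sum_congr rfl fun l _ => ?_
    simp only [Algebra.algebraMap_self, RingHom.id_apply]
    ring
  rw [h]
  rfl

theorem isHomogeneous_fL {n : ℕ} (L : Matrix (Fin n) (Fin n) k) (x : Fin n → k) :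
    (fL L x).IsHomogeneous 1 := by
  refine IsHomogeneous.sum _ _ _ fun i _ => ?_
  have := (isHomogeneous_C (Fin n) (x i)).mul (isHomogeneous_lin L i)
  rwa [zero_add] at this

theorem onL_smul {n : ℕ} (L : Matrix (Fin n) (Fin n) k) (c : k) {x y : Fin n → k}
    (h : OnL L x y) : OnL L (c • x) y := by
  unfold OnL at h ⊢
  have e : ∀ i, ∑ j, algebraMap k k (L i j) * ((c • x) i * y j) =
      c * ∑ j, algebraMap k k (L i j) * (x i * y j) := by
    intro i
    rw [Finset.mul_sum]
    refine Finset.sum_congr rfl fun j _ => ?_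
    rw [Pi.smul_apply, smul_eq_mul]
    ring
  rw [Finset.sum_congr rfl fun i _ => e i, ← Finset.mul_sum, h, mul_zero]

theorem onQ_smul {n : ℕ} (Q : Fin n → Fin n → Fin n → Fin n → k) (c : k) {x y : Fin n → k}
    (h : OnQ Q x y) : OnQ Q (c • x) y := by
  unfold OnQ at h ⊢
  have e : ∀ i j, ∑ r, ∑ l, algebraMap k k (Q i j r l) * ((c • x) i * (c • x) j * (y r * y l)) =
      c ^ 2 * ∑ r, ∑ l, algebraMap k k (Q i j r l) * (x i * x j * (y r * y l)) := by
    intro i j
    rw [Finset.mul_sum]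
    refine Finset.sum_congr rfl fun r _ => ?_
    rw [Finset.mul_sum]
    refine Finset.sum_congr rfl fun l _ => ?_
    rw [Pi.smul_apply, Pi.smul_apply, smul_eq_mul, smul_eq_mul]
    ring
  have e2 : ∀ i, ∑ j, ∑ r, ∑ l, algebraMap k k (Q i j r l) *
      ((c • x) i * (c • x) j * (y r * y l)) =
      c ^ 2 * ∑ j, ∑ r, ∑ l, algebraMap k k (Q i j r l) * (x i * x j * (y r * y l)) := by
    intro i
    rw [Finset.mul_sum]
    exact Finset.sum_congr rfl fun j _ => e i j
  rw [Finset.sum_congr rfl fun i _ => e2 i, ← Finset.mul_sum, h, mul_zero]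

/-- A form of positive degree has a nonzero zero with two prescribed zero coordinates. -/
theorem exists_zero_plane [IsAlgClosed k] {u : MvPolynomial (Fin 4) k} {d : ℕ} (hd : 0 < d)
    (hu : u.IsHomogeneous d) : ∃ y : Fin 4 → k, y ≠ 0 ∧ y 3 = 0 ∧ eval y u = 0 := by
  have hpt : ∀ a b : k, (![a, b, 0, 0] : Fin 4 → k) 3 = 0 := fun a b => rfl
  let φ : MvPolynomial (Fin 4) k →+* Polynomial k :=
    eval₂Hom Polynomial.C ![Polynomial.X, 1, 0, 0]
  have hφ : ∀ (t : k) (p : MvPolynomial (Fin 4) k),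
      (φ p).eval t = eval (![t, 1, 0, 0] : Fin 4 → k) p := by
    intro t p
    have : (Polynomial.evalRingHom t).comp φ = eval (![t, 1, 0, 0] : Fin 4 → k) := by
      refine MvPolynomial.ringHom_ext (fun c => ?_) (fun i => ?_)
      · simp [φ]
      · fin_cases i <;> simp [φ]
    exact congrArg (fun f : MvPolynomial (Fin 4) k →+* k => f p) this
  by_cases hdeg : (φ u).degree = 0
  · -- then `u (1, 0, 0, 0) = 0`
    refine ⟨![1, 0, 0, 0], fun h => one_ne_zero (congrFun h 0), rfl, ?_⟩
    by_contra hne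
    -- for `t ≠ 0`, `u (t, 1, 0, 0) = t ^ d * u (1, t⁻¹, 0, 0)`
    have h1 : (φ u) = Polynomial.C ((φ u).coeff 0) := Polynomial.eq_C_of_degree_eq_zero hdeg
    let ψ : MvPolynomial (Fin 4) k →+* Polynomial k :=
      eval₂Hom Polynomial.C ![1, Polynomial.X, 0, 0]
    have hψ : ∀ (t : k) (p : MvPolynomial (Fin 4) k),
        (ψ p).eval t = eval (![1, t, 0, 0] : Fin 4 → k) p := by
      intro t p
      have : (Polynomial.evalRingHom t).comp ψ = eval (![1, t, 0, 0] : Fin 4 → k) := by
        refine MvPolynomial.ringHom_ext (fun c => ?_) (fun i => ?_)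
        · simp [ψ]
        · fin_cases i <;> simp [ψ]
      exact congrArg (fun f : MvPolynomial (Fin 4) k →+* k => f p) this
    have h2 : ∀ t : k, t ≠ 0 → (ψ u).eval t = t ^ d * (φ u).coeff 0 := by
      intro t ht
      have h3 : eval (![1, t, 0, 0] : Fin 4 → k) u = t ^ d * eval (![t⁻¹, 1, 0, 0] : Fin 4 → k) u := by
        have h4 : (![1, t, 0, 0] : Fin 4 → k) = t • ![t⁻¹, 1, 0, 0] := by
          ext i
          fin_cases i <;> simp [ht]
        rw [h4, eval_smul' hu]
      rw [hψ, h3, ← hφ, h1]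
      simp
    have h5 : ψ u = Polynomial.C ((φ u).coeff 0) * Polynomial.X ^ d := by
      refine Polynomial.eq_of_infinite_eval_eq _ _ ?_
      refine Set.Infinite.mono (s := {t : k | t ≠ 0}) ?_ ?_
      · intro t ht
        change (ψ u).eval t = (Polynomial.C ((φ u).coeff 0) * Polynomial.X ^ d).eval t
        rw [h2 t ht, Polynomial.eval_mul, Polynomial.eval_C, Polynomial.eval_pow,
          Polynomial.eval_X, mul_comm]
      · exact (Set.finite_singleton (0 : k)).infinite_compl
    have h6 := hψ 0 u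
    rw [h5] at h6
    simp [hd.ne'] at h6
    exact hne h6.symm
  · by_cases h0 : φ u = 0
    · refine ⟨![0, 1, 0, 0], fun h => one_ne_zero (congrFun h 1), rfl, ?_⟩
      rw [← hφ, h0, Polynomial.eval_zero]
    · obtain ⟨t, ht⟩ := IsAlgClosed.exists_root (φ u) hdeg
      refine ⟨![t, 1, 0, 0], fun h => one_ne_zero (congrFun h 1), rfl, ?_⟩
      rw [← hφ]
      exact ht

/-- The core of the density statement. -/
theorem dense_core [IsAlgClosed k] (L L' : Matrix (Fin 4) (Fin 4) k)
    (Q : Fin 4 → Fin 4 → Fin 4 → Fin 4 → k) {ι : Type*} (G G' : ι → MvPolynomial (Fin 4) k)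
    (hG' : ∀ i, ∃ d, (G' i).IsHomogeneous d)
    (hG0' : ∀ x : Fin 4 → k, (∀ i, eval x (G' i) = 0) → x 3 = 0 → x = 0)
    {u F : MvPolynomial (Fin 4) k} (hu : Irreducible u) (hi : ∃ i, ¬ u ∣ G i)
    (hch : ∀ x : Fin 4 → k, x ≠ 0 → ∃ f : MvPolynomial (Fin 4) k, ¬ u ∣ f ∧
      ∀ y, OnL L x y → OnL L' x y → OnQ Q x y → eval y f = 0)
    (hF : ∀ y : Fin 4 → k, y ≠ 0 → eval y u = 0 → (∃ i, eval y (G i) ≠ 0) →
      (∀ x : Fin 4 → k, x ≠ 0 → OnL L x y → OnL L' x y → OnQ Q x y → ∃ i, eval x (G' i) ≠ 0) →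
      eval y F = 0) : u ∣ F := by
  classical
  obtain ⟨i0, hi0⟩ := hi
  have hfin := finite_zeros G' hG' (X 3) (isHomogeneous_X k 3) (fun x hx hx3 => hG0' x hx (by
    simpa using hx3))
  choose! f hf hfz using hch
  set B : MvPolynomial (Fin 4) k := G i0 * ∏ x ∈ hfin.toFinset, f x with hB
  have hmem : ∀ x ∈ hfin.toFinset, x ≠ 0 := by
    intro x hx h0
    rw [Set.Finite.mem_toFinset] at hx
    have := hx.2
    rw [h0] at this
    simp at this
  refine dvd_of_vanish' (B := B) (by norm_num) hu ?_ ?_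
  · intro h1
    rcases hu.prime.dvd_or_dvd h1 with h2 | h2
    · exact hi0 h2
    · obtain ⟨x, hx, hx2⟩ := (hu.prime.dvd_finsetProd_iff _).1 h2
      exact hf x (hmem x hx) hx2
  · intro y hy0 hyu hyB
    rw [hB, map_mul, map_prod] at hyB
    refine hF y hy0 hyu ⟨i0, left_ne_zero_of_mul hyB⟩ ?_
    intro x hx0 h1 h2 h3
    by_contra hcon
    push Not at hcon
    have hx3 : x 3 ≠ 0 := fun h => hx0 (hG0' x hcon h)
    have h4 : (x 3)⁻¹ • x ∈ hfin.toFinset := by
      rw [Set.Finite.mem_toFinset]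
      refine ⟨fun i => ?_, ?_⟩
      · obtain ⟨e, he⟩ := hG' i
        rw [eval_smul' he, hcon i, mul_zero]
      · simp [hx3]
    have h5 := hfz _ (hmem _ h4) y (onL_smul L _ h1) (onL_smul L' _ h2) (onQ_smul Q _ h3)
    exact (Finset.prod_ne_zero_iff.1 (right_ne_zero_of_mul hyB)) _ h4 h5

/-- A polynomial vanishing at the good zeros of an irreducible form is divisible by the form. -/
theorem dense_of [IsAlgClosed k] (L L' : Matrix (Fin 4) (Fin 4) k)
    (Q : Fin 4 → Fin 4 → Fin 4 → Fin 4 → k) {ι : Type*} (G G' : ι → MvPolynomial (Fin 4) k)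
    (hG' : ∀ i, ∃ d, (G' i).IsHomogeneous d)
    (hG0 : ∀ y : Fin 4 → k, (∀ i, eval y (G i) = 0) → y 3 = 0 → y = 0)
    (hG0' : ∀ x : Fin 4 → k, (∀ i, eval x (G' i) = 0) → x 3 = 0 → x = 0)
    (hb1 : ∀ x : Fin 4 → k, x ≠ 0 → ∃ y, ¬ OnL L x y)
    (hb2 : ∀ x : Fin 4 → k, x ≠ 0 → ¬ ∀ y, OnL L x y → OnL L' x y ∧ OnQ Q x y)
    {u F : MvPolynomial (Fin 4) k} {d : ℕ} (hu : Irreducible u) (hud : u.IsHomogeneous d)
    (hF : ∀ y : Fin 4 → k, y ≠ 0 → eval y u = 0 → (∃ i, eval y (G i) ≠ 0) →
      (∀ x : Fin 4 → k, x ≠ 0 → OnL L x y → OnL L' x y → OnQ Q x y → ∃ i, eval x (G' i) ≠ 0) →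
      eval y F = 0) : u ∣ F := by
  classical
  have hd : 0 < d := by
    rcases Nat.eq_zero_or_pos d with h | h
    · exfalso
      rw [h] at hud
      have h1 := (totalDegree_eq_zero_iff_eq_C (p := u)).1 (Nat.le_zero.1 hud.totalDegree_le)
      have h2 : u.coeff 0 ≠ 0 := by
        intro h3
        rw [h3, C_0] at h1
        exact hu.ne_zero h1
      apply hu.not_isUnit
      rw [h1]
      exact (isUnit_iff_ne_zero.2 h2).map C
    · exact h
  have hi : ∃ i, ¬ u ∣ G i := by
    by_contra hcon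
    push Not at hcon
    obtain ⟨y, hy0, hy3, hyu⟩ := exists_zero_plane hd hud
    refine hy0 (hG0 y (fun i => ?_) hy3)
    obtain ⟨c, hc⟩ := hcon i
    rw [hc, map_mul, hyu, zero_mul]
  have hch : ∀ x : Fin 4 → k, x ≠ 0 → ∃ f : MvPolynomial (Fin 4) k, ¬ u ∣ f ∧
      ∀ y, OnL L x y → OnL L' x y → OnQ Q x y → eval y f = 0 := by
    intro x hx
    by_cases h1 : u ∣ fL L x
    · by_cases h2 : u ∣ fL L' x
      · by_cases h3 : u ∣ fQ Q x
        · exfalso
          obtain ⟨y0, hy0⟩ := hb1 x hx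
          have hne : fL L x ≠ 0 := by
            intro h
            apply hy0
            rw [← eval_fL, h, map_zero]
          have h4 : Associated u (fL L x) := by
            obtain ⟨c, hc⟩ := h1
            have hc0 : c ≠ 0 := by
              rintro rfl
              exact hne (by rw [hc, mul_zero])
            have hdeg : (fL L x).totalDegree = u.totalDegree + c.totalDegree := by
              rw [hc, totalDegree_mul_of_isDomain hu.ne_zero hc0]
            rw [(isHomogeneous_fL L x).totalDegree hne, hud.totalDegree hu.ne_zero] at hdeg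
            have h5 : c.totalDegree = 0 := by omega
            have h6 := totalDegree_eq_zero_iff_eq_C.1 h5
            have h7 : c.coeff 0 ≠ 0 := by
              intro h8
              rw [h8, C_0] at h6
              exact hc0 h6
            have h8 : IsUnit c := by
              rw [h6]
              exact (isUnit_iff_ne_zero.2 h7).map C
            exact ⟨h8.unit, by rw [hc]; rfl⟩
          refine hb2 x hx fun y hy => ?_
          have h5 : eval y u = 0 := by
            obtain ⟨c, hc⟩ := h4.symm.dvd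
            rw [hc, map_mul, (eval_fL L x y).2 hy, zero_mul]
          constructor
          · rw [← eval_fL]
            obtain ⟨c, hc⟩ := h2
            rw [hc, map_mul, h5, zero_mul]
          · rw [← eval_fQ]
            obtain ⟨c, hc⟩ := h3
            rw [hc, map_mul, h5, zero_mul]
        · exact ⟨_, h3, fun y _ _ h => (eval_fQ Q x y).2 h⟩
      · exact ⟨_, h2, fun y _ h _ => (eval_fL L' x y).2 h⟩
    · exact ⟨_, h1, fun y h _ _ => (eval_fL L x y).2 h⟩
  exact dense_core L L' Q G G' hG' hG0' hu hi hch hF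

end Pool.Agent.Helper63.NPD
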