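import Mathlib

/-!
# A simple root of a quadratic equation over power series
-/

set_option autoImplicit false

namespace Pool.Agent.Helper63.NPD

open Polynomial

universe u

variable {K : Type u} [Field K]

/-- The square root of a power series with nonzero square constant term. -/
theorem exists_sqrt_series (h2 : (2 : K) ≠ 0) (D : PowerSeries K) (b : K) (hb : b ≠ 0)
    (hD : PowerSeries.constantCoeff D = b ^ 2) :
    ∃ u : PowerSeries K, u ^ 2 = D ∧ PowerSeries.constantCoeff u = b := by
  have hH : HenselianRing (PowerSeries K) (Ideal.span {PowerSeries.X}) := inferInstance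
  have hmem : ∀ z : PowerSeries K, z ∈ Ideal.span {(PowerSeries.X : PowerSeries K)} ↔
      PowerSeries.constantCoeff z = 0 := fun z => by
    rw [Ideal.mem_span_singleton, PowerSeries.X_dvd_iff]
  obtain ⟨u, hu1, hu2⟩ := hH.is_henselian (X ^ 2 - C D) (monic_X_pow_sub_C D two_ne_zero)
    (PowerSeries.C b) (by
      rw [hmem]
      simp [hD]) (by
      have e : (derivative (X ^ 2 - C D : (PowerSeries K)[X])).eval (PowerSeries.C b) =
          PowerSeries.C (2 * b) := by
        rw [map_mul, map_ofNat]
        simp only [derivative_sub, derivative_pow, derivative_X, derivative_C, sub_zero, eval_mul,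
          eval_pow, eval_X, eval_natCast, eval_C, mul_one, Nat.cast_ofNat, eval_ofNat,
          Nat.add_one_sub_one, pow_one]
      rw [e]
      exact ((isUnit_iff_ne_zero.mpr (mul_ne_zero h2 hb)).map
        (PowerSeries.C : K →+* PowerSeries K)).map _)
  refine ⟨u, ?_, ?_⟩
  · have := hu1
    rw [IsRoot.def, eval_sub, eval_pow, eval_X, eval_C, sub_eq_zero] at this
    exact this
  · rw [hmem, map_sub, PowerSeries.constantCoeff_C, sub_eq_zero] at hu2
    exact hu2

/-- A simple root of `U w ^ 2 + V w + W = 0` at `s = 0` extends to a power series. -/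
theorem exists_branch (h2 : (2 : K) ≠ 0) (U V W : PowerSeries K) (a : K)
    (hU : PowerSeries.constantCoeff U ≠ 0)
    (ha : PowerSeries.constantCoeff U * a ^ 2 + PowerSeries.constantCoeff V * a +
      PowerSeries.constantCoeff W = 0)
    (hd : 2 * PowerSeries.constantCoeff U * a + PowerSeries.constantCoeff V ≠ 0) :
    ∃ w : PowerSeries K, PowerSeries.constantCoeff w = a ∧ U * w ^ 2 + V * w + W = 0 := by
  obtain ⟨u, hu, hu0⟩ := exists_sqrt_series h2 (V ^ 2 - 4 * U * W)
    (2 * PowerSeries.constantCoeff U * a + PowerSeries.constantCoeff V) hd (by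
      simp only [map_sub, map_mul, map_pow, map_ofNat]
      linear_combination -(4 * PowerSeries.constantCoeff U) * ha)
  have h2U : PowerSeries.constantCoeff (2 * U) ≠ 0 := by
    rw [map_mul, map_ofNat]
    exact mul_ne_zero h2 hU
  have hw : 2 * U * ((2 * U)⁻¹ * (u - V)) = u - V := by
    rw [← mul_assoc, PowerSeries.mul_inv_cancel _ h2U, one_mul]
  refine ⟨(2 * U)⁻¹ * (u - V), ?_, ?_⟩
  · have h3 := congrArg PowerSeries.constantCoeff hw
    rw [map_mul, map_sub, hu0, map_mul, map_ofNat] at h3
    have h4 : 2 * PowerSeries.constantCoeff U ≠ 0 := mul_ne_zero h2 hU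
    apply mul_left_cancel₀ h4
    rw [h3]
    ring
  · set w := (2 * U)⁻¹ * (u - V) with hwdef
    have h4U : (4 * U : PowerSeries K) ≠ 0 := by
      intro h
      have := congrArg PowerSeries.constantCoeff h
      rw [map_mul, map_ofNat, map_zero] at this
      have h4 : (4 : K) ≠ 0 := by
        have : (4 : K) = 2 * 2 := by norm_num
        rw [this]
        exact mul_ne_zero h2 h2
      exact (mul_ne_zero h4 hU) this
    apply mul_left_cancel₀ h4U
    have e : (2 * U * w + V) ^ 2 = V ^ 2 - 4 * U * W := by
      rw [hw, ← hu]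
      ring
    linear_combination e

end Pool.Agent.Helper63.NPD
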