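import Pool.Agent.Helper63.NPD.Inst
import Pool.Agent.Helper37.RP.Inst

/-!
# The density hypothesis for helper37's instances
-/

namespace Pool.Agent.Helper63.NPD

open MvPolynomial Pool.Agent.Helper37.RP Pool.Agent.Helper47.NI

universe u

variable {k : Type u} [Field k] [IsAlgClosed k]

section

variable {L L' : Matrix (Fin 4) (Fin 4) k} {Q : Fin 4 → Fin 4 → Fin 4 → Fin 4 → k}
  (hQ : ∀ i j a b, Q i j a b = Q j i a b) (hQ' : ∀ i j a b, Q i j a b = Q i j b a)

theorem dense37 (h : Cond4 L L' Q) : (Helper37.RP.dbl4 L L' Q hQ hQ').Dense :=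
  dense_aux (L := L) (L' := L') (Q := Q) _ (fun _ => rfl) (fun _ => rfl) (fun _ _ hz => hz)
    h.bad h.bad' h.lin h.surf

theorem dense37_swap (h : Cond4 L L' Q) : (Helper37.RP.dbl4 L L' Q hQ hQ').swap.Dense := by
  refine dense_aux (L := L.transpose) (L' := L'.transpose) (Q := tQ Q) _ (fun _ => rfl)
    (fun _ => rfl) (fun y x hz => ?_) h.bad' h.bad ?_ ?_
  · obtain ⟨h1, h2, h3, h4, h5⟩ := hz
    exact ⟨h2, h1, (onL_transpose L x y).2 h3, (onL_transpose L' x y).2 h4,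
      (onQ_transpose Q x y).2 h5⟩
  · intro y hy
    obtain ⟨x, hx⟩ := h.lin' y hy
    exact ⟨x, fun h1 => hx ((onL_transpose L x y).1 h1)⟩
  · intro y hy hcon
    refine h.surf' y hy fun x hx => ?_
    obtain ⟨h1, h2⟩ := hcon x ((onL_transpose L x y).2 hx)
    exact ⟨(onL_transpose L' x y).1 h1, (onQ_transpose Q x y).1 h2⟩

end

section

variable {L : Matrix (Fin 3) (Fin 3) k} {Q : Fin 3 → Fin 3 → Fin 3 → Fin 3 → k}
  (hQ : ∀ i j a b, Q i j a b = Q j i a b) (hQ' : ∀ i j a b, Q i j a b = Q i j b a)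

theorem dense37_3 (h : Cond3 L Q) : (Helper37.RP.dbl3 L Q hQ hQ').Dense :=
  dense_all _ (fun y hy => exists_ne3 h.fin y hy) (fun x hx => exists_ne3 h.fin' x hx)

theorem dense37_3_swap (h : Cond3 L Q) : (Helper37.RP.dbl3 L Q hQ hQ').swap.Dense :=
  dense_all _ (fun y hy => exists_ne3 h.fin' y hy) (fun x hx => exists_ne3 h.fin x hx)

end

end Pool.Agent.Helper63.NPD
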