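import Pool.Agent.Helper63.NPD.Dense
import Pool.Agent.Helper63.NPD.Surj
import Pool.Agent.Helper47.NI.Defs
import Pool.Agent.Helper47.NI.Hom

/-!
# The two double coverings of complete intersections in `P^2 × P^2` and `P^3 × P^3`
-/

namespace Pool.Agent.Helper63.NPD

open MvPolynomial Pool.Agent.Helper37.RP Pool.Agent.Helper47.NI

universe u

variable {k : Type u} [Field k]

/-- Exchange of the two groups of variables. -/
def tQ {n : ℕ} (Q : Fin n → Fin n → Fin n → Fin n → k) : Fin n → Fin n → Fin n → Fin n → k :=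
  fun a b i j => Q i j a b

theorem onL_transpose {n : ℕ} (L : Matrix (Fin n) (Fin n) k) (x y : Fin n → k) :
    OnL L.transpose y x ↔ OnL L x y := by
  unfold OnL
  rw [Finset.sum_comm]
  simp only [Matrix.transpose_apply]
  have e : ∑ i, ∑ j, algebraMap k k (L i j) * (y j * x i) =
      ∑ i, ∑ j, algebraMap k k (L i j) * (x i * y j) :=
    Finset.sum_congr rfl fun i _ => Finset.sum_congr rfl fun j _ => by rw [mul_comm (y j)]
  rw [e]

theorem onQ_transpose {n : ℕ} (Q : Fin n → Fin n → Fin n → Fin n → k) (x y : Fin n → k) :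
    OnQ (tQ Q) y x ↔ OnQ Q x y := by
  unfold OnQ tQ
  have e : ∑ a, ∑ b, ∑ i, ∑ j, algebraMap k k (Q i j a b) * (y a * y b * (x i * x j)) =
      ∑ i, ∑ j, ∑ a, ∑ b, algebraMap k k (Q i j a b) * (x i * x j * (y a * y b)) := by
    have e1 : ∑ a, ∑ b, ∑ i, ∑ j, algebraMap k k (Q i j a b) * (y a * y b * (x i * x j)) =
        ∑ a, ∑ i, ∑ b, ∑ j, algebraMap k k (Q i j a b) * (x i * x j * (y a * y b)) := by
      refine Finset.sum_congr rfl fun a _ => ?_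
      rw [Finset.sum_comm]
      refine Finset.sum_congr rfl fun i _ => Finset.sum_congr rfl fun b _ =>
        Finset.sum_congr rfl fun j _ => ?_
      ring
    rw [e1, Finset.sum_comm]
    refine Finset.sum_congr rfl fun i _ => ?_
    have e2 : ∑ a, ∑ b, ∑ j, algebraMap k k (Q i j a b) * (x i * x j * (y a * y b)) =
        ∑ a, ∑ j, ∑ b, algebraMap k k (Q i j a b) * (x i * x j * (y a * y b)) :=
      Finset.sum_congr rfl fun a _ => Finset.sum_comm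
    rw [e2, Finset.sum_comm]
  rw [e]

section P3

variable [IsAlgClosed k]

/-- `(1,1)`, `(1,1)`, `(2,2)` in `P^3 × P^3`. -/
noncomputable def dbl4 (L L' : Matrix (Fin 4) (Fin 4) k)
    (Q : Fin 4 → Fin 4 → Fin 4 → Fin 4 → k) (hQ : ∀ i j a b, Q i j a b = Q j i a b)
    (hQ' : ∀ i j a b, Q i j a b = Q i j b a) : Dbl k 4 6 where
  G := fun p => chow4 L L' Q p.1 p.2
  G' := fun p => chow4 L.transpose L'.transpose (tQ Q) p.1 p.2
  hG := fun p => isHomogeneous_chow4 _ _ _ _ _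
  hG' := fun p => isHomogeneous_chow4 _ _ _ _ _
  S := {z | z.1 ≠ 0 ∧ z.2 ≠ 0 ∧ OnL L z.1 z.2 ∧ OnL L' z.1 z.2 ∧ OnQ Q z.1 z.2}
  ne1 := fun h => h.1
  ne2 := fun h => h.2.1
  sx := by
    rintro x y ⟨h1, h2, h3, h4, h5⟩ ⟨p, hp⟩
    obtain ⟨x', g1, g2, g3, g4, g5⟩ := exists_other4 L L' Q hQ x y h1 h3 h4 h5
      ⟨p.1, p.2, by rw [aeval_eq_eval]; exact hp⟩
    refine ⟨x', ⟨g1, h2, g2, g3, g4⟩, fun p => ?_⟩
    have := g5 p.1 p.2
    rw [aeval_eq_eval] at this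
    exact this
  sy := by
    rintro x y ⟨h1, h2, h3, h4, h5⟩ ⟨p, hp⟩
    obtain ⟨y', g1, g2, g3, g4, g5⟩ := exists_other4 L.transpose L'.transpose (tQ Q)
      (fun a b i j => hQ' i j a b) y x h2 ((onL_transpose L x y).2 h3)
      ((onL_transpose L' x y).2 h4) ((onQ_transpose Q x y).2 h5)
      ⟨p.1, p.2, by rw [aeval_eq_eval]; exact hp⟩
    refine ⟨y', ⟨h1, g1, (onL_transpose L x y').1 g2, (onL_transpose L' x y').1 g3,
      (onQ_transpose Q x y').1 g4⟩, fun p => ?_⟩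
    have := g5 p.1 p.2
    rw [aeval_eq_eval] at this
    exact this
  ex := by
    rintro y hy -
    obtain ⟨x, h1, h2, h3⟩ := exists_point (m := 2) (n := 4) le_rfl ![L, L'] Q y
    exact ⟨x, h1, hy, h2 0, h2 1, h3⟩
  ex' := by
    rintro x hx -
    obtain ⟨y, h1, h2, h3⟩ := exists_point (m := 2) (n := 4) le_rfl
      ![L.transpose, L'.transpose] (tQ Q) x
    exact ⟨y, hx, h1, (onL_transpose L x y).1 (h2 0), (onL_transpose L' x y).1 (h2 1),
      (onQ_transpose Q x y).1 h3⟩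

/-- The conditions on the family. -/
structure Cond4 (L L' : Matrix (Fin 4) (Fin 4) k)
    (Q : Fin 4 → Fin 4 → Fin 4 → Fin 4 → k) : Prop where
  bad : ∀ y : Fin 4 → k, (∀ i j, eval y (chow4 L L' Q i j) = 0) → y 3 = 0 → y = 0
  bad' : ∀ x : Fin 4 → k, (∀ i j, eval x (chow4 L.transpose L'.transpose (tQ Q) i j) = 0) →
    x 3 = 0 → x = 0
  lin : ∀ x : Fin 4 → k, x ≠ 0 → ∃ y, ¬ OnL L x y
  lin' : ∀ y : Fin 4 → k, y ≠ 0 → ∃ x, ¬ OnL L x y
  surf : ∀ x : Fin 4 → k, x ≠ 0 → ¬ ∀ y, OnL L x y → OnL L' x y ∧ OnQ Q x y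
  surf' : ∀ y : Fin 4 → k, y ≠ 0 → ¬ ∀ x, OnL L x y → OnL L' x y ∧ OnQ Q x y

theorem exists_form_not_dvd {L L' : Matrix (Fin 4) (Fin 4) k}
    {Q : Fin 4 → Fin 4 → Fin 4 → Fin 4 → k}
    (hbad : ∀ y : Fin 4 → k, (∀ i j, eval y (chow4 L L' Q i j) = 0) → y 3 = 0 → y = 0) :
    ∃ i j, chow4 L L' Q i j ≠ 0 := by
  by_contra hcon
  push Not at hcon
  have h := hbad (fun i => if i = 0 then 1 else 0) (fun i j => by rw [hcon i j, map_zero]) rfl
  have := congrFun h 0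
  simp at this

theorem dense_aux {L L' : Matrix (Fin 4) (Fin 4) k} {Q : Fin 4 → Fin 4 → Fin 4 → Fin 4 → k}
    (D : Dbl k 4 6) (hDG : ∀ p, D.G p = chow4 L L' Q p.1 p.2)
    (hDG' : ∀ p, D.G' p = chow4 L.transpose L'.transpose (tQ Q) p.1 p.2)
    (hS : ∀ x y, (x, y) ∈ D.S → x ≠ 0 ∧ y ≠ 0 ∧ OnL L x y ∧ OnL L' x y ∧ OnQ Q x y)
    (hbad : ∀ y : Fin 4 → k, (∀ i j, eval y (chow4 L L' Q i j) = 0) → y 3 = 0 → y = 0)
    (hbad' : ∀ x : Fin 4 → k, (∀ i j, eval x (chow4 L.transpose L'.transpose (tQ Q) i j) = 0) →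
      x 3 = 0 → x = 0)
    (hlin : ∀ x : Fin 4 → k, x ≠ 0 → ∃ y, ¬ OnL L x y)
    (hsurf : ∀ x : Fin 4 → k, x ≠ 0 → ¬ ∀ y, OnL L x y → OnL L' x y ∧ OnQ Q x y) : D.Dense := by
  intro w hw F hF
  have hinf : Infinite k := inferInstance
  have hne : ∃ i j, chow4 L L' Q i j ≠ 0 := exists_form_not_dvd hbad
  have hGh : ∀ p : Fin 4 × Fin 4,
      ∃ d, (chow4 L.transpose L'.transpose (tQ Q) p.1 p.2).IsHomogeneous d :=
    fun p => ⟨6, isHomogeneous_chow4 _ _ _ _ _⟩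
  have hG0 : ∀ y : Fin 4 → k, (∀ p : Fin 4 × Fin 4, eval y (chow4 L L' Q p.1 p.2) = 0) →
      y 3 = 0 → y = 0 := fun y hy => hbad y fun i j => hy (i, j)
  have hG0' : ∀ x : Fin 4 → k, (∀ p : Fin 4 × Fin 4,
      eval x (chow4 L.transpose L'.transpose (tQ Q) p.1 p.2) = 0) → x 3 = 0 → x = 0 :=
    fun x hx => hbad' x fun i j => hx (i, j)
  have hF' : ∀ y : Fin 4 → k, y ≠ 0 → eval y w = 0 →
      (∃ p : Fin 4 × Fin 4, eval y (chow4 L L' Q p.1 p.2) ≠ 0) →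
      (∀ x : Fin 4 → k, x ≠ 0 → OnL L x y → OnL L' x y → OnQ Q x y →
        ∃ p : Fin 4 × Fin 4, eval x (chow4 L.transpose L'.transpose (tQ Q) p.1 p.2) ≠ 0) →
      eval y F = 0 := by
    rintro y hy hyw ⟨p, hp⟩ h2
    refine hF y hy ⟨⟨p, by rw [hDG]; exact hp⟩, ?_⟩ hyw
    intro x hx
    obtain ⟨g1, g2, g3, g4, g5⟩ := hS x y hx
    obtain ⟨q, hq⟩ := h2 x g1 g3 g4 g5
    exact ⟨q, by rw [hDG']; exact hq⟩
  by_cases hwh : ∃ d, w.IsHomogeneous d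
  · obtain ⟨d, hd⟩ := hwh
    exact dense_of L L' Q (fun p : Fin 4 × Fin 4 => chow4 L L' Q p.1 p.2)
      (fun p : Fin 4 × Fin 4 => chow4 L.transpose L'.transpose (tQ Q) p.1 p.2) hGh hG0 hG0'
      hlin hsurf hw hd hF'
  · have hnd : ∀ (f : MvPolynomial (Fin 4) k) (d : ℕ), f.IsHomogeneous d → f ≠ 0 → ¬ w ∣ f := by
      rintro f d hf hf0 ⟨c, hc⟩
      rw [hc] at hf hf0
      obtain ⟨a, b, ha, -, -⟩ := hom_factor hf hf0
      exact hwh ⟨a, ha⟩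
    obtain ⟨i, j, hij⟩ := hne
    refine dense_core L L' Q (fun p : Fin 4 × Fin 4 => chow4 L L' Q p.1 p.2)
      (fun p : Fin 4 × Fin 4 => chow4 L.transpose L'.transpose (tQ Q) p.1 p.2) hGh hG0' hw
      ⟨(i, j), hnd _ 6 (isHomogeneous_chow4 _ _ _ _ _) hij⟩ (fun x hx => ?_) hF'
    refine ⟨fL L x, hnd _ 1 (isHomogeneous_fL L x) ?_, fun y hy _ _ => (eval_fL L x y).2 hy⟩
    intro h0
    obtain ⟨y, hy⟩ := hlin x hx
    exact hy ((eval_fL L x y).1 (by rw [h0, map_zero]))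

variable {L L' : Matrix (Fin 4) (Fin 4) k} {Q : Fin 4 → Fin 4 → Fin 4 → Fin 4 → k}
  (hQ : ∀ i j a b, Q i j a b = Q j i a b) (hQ' : ∀ i j a b, Q i j a b = Q i j b a)

/-- The density hypothesis for `dbl4`. -/
theorem dense4 (h : Cond4 L L' Q) : (dbl4 L L' Q hQ hQ').Dense :=
  dense_aux (L := L) (L' := L') (Q := Q) _ (fun _ => rfl) (fun _ => rfl) (fun _ _ hz => hz)
    h.bad h.bad' h.lin h.surf

/-- The density hypothesis for the exchanged `dbl4`. -/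
theorem dense4_swap (h : Cond4 L L' Q) : (dbl4 L L' Q hQ hQ').swap.Dense := by
  refine dense_aux (L := L.transpose) (L' := L'.transpose) (Q := tQ Q) _ (fun _ => rfl)
    (fun _ => rfl) (fun y x hz => ?_) h.bad' h.bad ?_ ?_
  · obtain ⟨h1, h2, h3, h4, h5⟩ := hz
    exact ⟨h2, h1, (onL_transpose L x y).2 h3, (onL_transpose L' x y).2 h4,
      (onQ_transpose Q x y).2 h5⟩
  · intro y hy
    obtain ⟨x, hx⟩ := h.lin' y hy
    exact ⟨x, fun h1 => hx ((onL_transpose L x y).1 h1)⟩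
  · intro y hy hcon
    refine h.surf' y hy fun x hx => ?_
    obtain ⟨h1, h2⟩ := hcon x ((onL_transpose L x y).2 hx)
    exact ⟨(onL_transpose L' x y).1 h1, (onQ_transpose Q x y).1 h2⟩

end P3

section P2

variable [IsAlgClosed k]

/-- `(1,1)`, `(2,2)` in `P^2 × P^2`. -/
noncomputable def dbl3 (L : Matrix (Fin 3) (Fin 3) k)
    (Q : Fin 3 → Fin 3 → Fin 3 → Fin 3 → k) (hQ : ∀ i j a b, Q i j a b = Q j i a b)
    (hQ' : ∀ i j a b, Q i j a b = Q i j b a) : Dbl k 3 4 where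
  G := fun p => chow3 L Q p.1 p.2
  G' := fun p => chow3 L.transpose (tQ Q) p.1 p.2
  hG := fun p => isHomogeneous_chow3 _ _ _ _
  hG' := fun p => isHomogeneous_chow3 _ _ _ _
  S := {z | z.1 ≠ 0 ∧ z.2 ≠ 0 ∧ OnL L z.1 z.2 ∧ OnQ Q z.1 z.2}
  ne1 := fun h => h.1
  ne2 := fun h => h.2.1
  sx := by
    rintro x y ⟨h1, h2, h3, h5⟩ ⟨p, hp⟩
    obtain ⟨x', g1, g2, g4, g5⟩ := exists_other3 L Q hQ x y h1 h3 h5
      ⟨p.1, p.2, by rw [aeval_eq_eval]; exact hp⟩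
    refine ⟨x', ⟨g1, h2, g2, g4⟩, fun p => ?_⟩
    have := g5 p.1 p.2
    rw [aeval_eq_eval] at this
    exact this
  sy := by
    rintro x y ⟨h1, h2, h3, h5⟩ ⟨p, hp⟩
    obtain ⟨y', g1, g2, g4, g5⟩ := exists_other3 L.transpose (tQ Q)
      (fun a b i j => hQ' i j a b) y x h2 ((onL_transpose L x y).2 h3)
      ((onQ_transpose Q x y).2 h5)
      ⟨p.1, p.2, by rw [aeval_eq_eval]; exact hp⟩
    refine ⟨y', ⟨h1, g1, (onL_transpose L x y').1 g2, (onQ_transpose Q x y').1 g4⟩, fun p => ?_⟩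
    have := g5 p.1 p.2
    rw [aeval_eq_eval] at this
    exact this
  ex := by
    rintro y hy -
    obtain ⟨x, h1, h2, h3⟩ := exists_point (m := 1) (n := 3) le_rfl ![L] Q y
    exact ⟨x, h1, hy, h2 0, h3⟩
  ex' := by
    rintro x hx -
    obtain ⟨y, h1, h2, h3⟩ := exists_point (m := 1) (n := 3) le_rfl
      ![L.transpose] (tQ Q) x
    exact ⟨y, hx, h1, (onL_transpose L x y).1 (h2 0), (onQ_transpose Q x y).1 h3⟩

/-- All fibres are finite. -/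
structure Cond3 (L : Matrix (Fin 3) (Fin 3) k) (Q : Fin 3 → Fin 3 → Fin 3 → Fin 3 → k) :
    Prop where
  fin : ∀ y : Fin 3 → k, (∀ i j, eval y (chow3 L Q i j) = 0) → y = 0
  fin' : ∀ x : Fin 3 → k, (∀ i j, eval x (chow3 L.transpose (tQ Q) i j) = 0) → x = 0

theorem dense_all (D : Dbl k 3 4) (h : ∀ y : Fin 3 → k, y ≠ 0 → ∃ p, eval y (D.G p) ≠ 0)
    (h' : ∀ x : Fin 3 → k, x ≠ 0 → ∃ p, eval x (D.G' p) ≠ 0) : D.Dense := by
  intro w hw F hF
  refine dvd_of_vanish' (B := 1) (by norm_num) hw (fun h1 => hw.not_isUnit (isUnit_of_dvd_one h1))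
    ?_
  intro y hy hyw _
  exact hF y hy ⟨h y hy, fun x hx => h' x (D.ne1 hx)⟩ hyw

variable {L : Matrix (Fin 3) (Fin 3) k} {Q : Fin 3 → Fin 3 → Fin 3 → Fin 3 → k}
  (hQ : ∀ i j a b, Q i j a b = Q j i a b) (hQ' : ∀ i j a b, Q i j a b = Q i j b a)

theorem exists_ne3 (h : ∀ y : Fin 3 → k, (∀ i j, eval y (chow3 L Q i j) = 0) → y = 0)
    (y : Fin 3 → k) (hy : y ≠ 0) : ∃ p : Fin 3 × Fin 3, eval y (chow3 L Q p.1 p.2) ≠ 0 := by
  by_contra hcon
  push Not at hcon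
  exact hy (h y fun i j => hcon (i, j))

/-- The density hypothesis for `dbl3`. -/
theorem dense3 (h : Cond3 L Q) : (dbl3 L Q hQ hQ').Dense :=
  dense_all _ (fun y hy => exists_ne3 h.fin y hy) (fun x hx => exists_ne3 h.fin' x hx)

/-- The density hypothesis for the exchanged `dbl3`. -/
theorem dense3_swap (h : Cond3 L Q) : (dbl3 L Q hQ hQ').swap.Dense :=
  dense_all _ (fun y hy => exists_ne3 h.fin' y hy) (fun x hx => exists_ne3 h.fin x hx)

end P2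

end Pool.Agent.Helper63.NPD
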