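import Mathlib

/-!
# Polynomials on the curve `U w ^ 2 + V w + W = 0`
-/

set_option autoImplicit false

namespace Pool.Agent.Helper63.NPD

open Polynomial

universe u

variable {K : Type u} [Field K]

/-- The squarefree part of a polynomial. -/
theorem exists_sqfree_part (q : K[X]) (hq : q ≠ 0) :
    ∃ g r : K[X], q = g ^ 2 * r ∧ Squarefree r := by
  induction hn : q.natDegree using Nat.strong_induction_on generalizing q with
  | _ n ih =>
  by_cases hs : Squarefree q
  · exact ⟨1, q, by ring, hs⟩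
  · rw [Squarefree] at hs
    push Not at hs
    obtain ⟨x, ⟨q1, hq1⟩, hx⟩ := hs
    have hx0 : x ≠ 0 := by
      rintro rfl
      apply hq
      rw [hq1]
      ring
    have hq10 : q1 ≠ 0 := by
      rintro rfl
      apply hq
      rw [hq1]
      ring
    have hdx : 0 < x.natDegree := by
      rcases Nat.eq_zero_or_pos x.natDegree with h | h
      · exfalso
        apply hx
        rw [eq_C_of_natDegree_eq_zero h] at hx0 ⊢
        exact isUnit_C.mpr (isUnit_iff_ne_zero.mpr fun h0 => hx0 (by rw [h0, C_0]))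
      · exact h
    have hd : q.natDegree = x.natDegree + x.natDegree + q1.natDegree := by
      rw [hq1, natDegree_mul (mul_ne_zero hx0 hx0) hq10, natDegree_mul hx0 hx0]
    obtain ⟨g, r, hgr, hr⟩ := ih q1.natDegree (by omega) q1 hq10 rfl
    exact ⟨x * g, r, by rw [hq1, hgr]; ring, hr⟩

/-- A squarefree polynomial which is not constant is not a square of a fraction. -/
theorem eq_zero_of_sq_eq (r : K[X]) (hr : Squarefree r) (h1 : 1 ≤ r.natDegree) (A B : K[X])
    (h : A ^ 2 = B ^ 2 * r) : A = 0 ∧ B = 0 := by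
  by_cases hB : B = 0
  · subst hB
    refine ⟨?_, rfl⟩
    have : A ^ 2 = 0 := by rw [h]; ring
    exact pow_eq_zero_iff (two_ne_zero) |>.mp this
  · exfalso
    have h2 : B ^ 2 ∣ A ^ 2 := ⟨r, h⟩
    have h3 : B ∣ A := (IsIntegrallyClosed.pow_dvd_pow_iff two_ne_zero).mp h2
    obtain ⟨c, rfl⟩ := h3
    have h4 : r = c * c := by
      have h5 : B ^ 2 * (c * c) = B ^ 2 * r := by rw [← h]; ring
      exact (mul_left_cancel₀ (pow_ne_zero 2 hB) h5).symm
    have h5 : IsUnit c := hr c ⟨1, by rw [h4]; ring⟩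
    have h6 : IsUnit r := by rw [h4]; exact h5.mul h5
    have := natDegree_eq_zero_of_isUnit h6
    omega

/-- A polynomial in `w` is a fraction `(A + B u) / U ^ n`, `u = 2 U w + V`. -/
theorem reduce [CharZero K] (U V D : K[X]) (P : K[X][X]) :
    ∃ (n : ℕ) (A B : K[X]), ∀ (R : Type u) [CommRing R] (φ : K[X] →+* R) (u w : R),
      u ^ 2 = φ D → φ (2 * U) * w = u - φ V →
        φ U ^ n * P.eval₂ φ w = φ A + φ B * u := by
  induction P using Polynomial.induction_on with
  | C a =>
    refine ⟨0, a, 0, fun R _ φ u w _ _ => ?_⟩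
    rw [eval₂_C, map_zero]
    ring
  | add P Q hP hQ =>
    obtain ⟨n, A, B, h1⟩ := hP
    obtain ⟨m, A', B', h2⟩ := hQ
    refine ⟨n + m, U ^ m * A + U ^ n * A', U ^ m * B + U ^ n * B', fun R _ φ u w hu hw => ?_⟩
    have e1 := h1 R φ u w hu hw
    have e2 := h2 R φ u w hu hw
    rw [eval₂_add]
    simp only [map_add, map_mul, map_pow]
    linear_combination φ U ^ m * e1 + φ U ^ n * e2
  | monomial k a hk =>
    obtain ⟨n, A, B, h1⟩ := hk
    refine ⟨n + 1, C (2⁻¹ : K) * (B * D - A * V), C (2⁻¹ : K) * (A - B * V),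
      fun R _ φ u w hu hw => ?_⟩
    have e1 := h1 R φ u w hu hw
    rw [eval₂_mul, eval₂_C, eval₂_pow, eval₂_X] at e1 ⊢
    have e2 : φ (C (2⁻¹ : K)) * 2 = 1 := by
      have : (C (2⁻¹ : K) : K[X]) * 2 = 1 := by
        have h2 : (2 : K[X]) = C 2 := (map_ofNat (C : K →+* K[X]) 2).symm
        rw [h2, ← C_mul, inv_mul_cancel₀ two_ne_zero, C_1]
      rw [← map_ofNat φ 2, ← map_mul, this, map_one]
    rw [map_mul, map_ofNat] at hw
    have e3 : φ U * w = φ (C (2⁻¹ : K)) * (u - φ V) := by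
      linear_combination φ (C (2⁻¹ : K)) * hw - φ U * w * e2
    simp only [map_mul, map_sub]
    have e4 : φ U ^ (n + 1) * (φ a * w ^ (k + 1)) = (φ U ^ n * (φ a * w ^ k)) * (φ U * w) := by
      ring
    rw [e4, e1, e3]
    linear_combination φ (C (2⁻¹ : K)) * φ B * hu

end Pool.Agent.Helper63.NPD
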