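import Pool.Agent.Helper63.NPD.ZPts

/-!
# Points of the curve `U w ^ 2 + V w + W = 0` over a finite extension, near one branch
-/

set_option autoImplicit false

namespace Pool.Agent.Helper63.NPD

open Polynomial

universe u

/-- Points of `u ^ 2 = q(s)` off the zeros of a function which does not vanish on a branch. -/
theorem branch_points (K : Type u) [Field K] [NumberField K] (q : K[X]) (h4 : q.natDegree ≤ 4)
    (u₀ : PowerSeries K) (hu : u₀ ^ 2 = (q : PowerSeries K)) (h0 : q.coeff 0 ≠ 0) :
    ∃ (L : Type u) (_ : Field L) (_ : Algebra K L), FiniteDimensional K L ∧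
      ∀ A B : K[X], (A : PowerSeries K) + (B : PowerSeries K) * u₀ ≠ 0 →
        ∃ s u : L, u ^ 2 = aeval s q ∧ aeval s A + aeval s B * u ≠ 0 ∧
          ∀ A' B' : K[X], (A' : PowerSeries K) + (B' : PowerSeries K) * u₀ = 0 →
            aeval s A' + aeval s B' * u = 0 := by
  have hq0 : q ≠ 0 := fun h => h0 (by rw [h, coeff_zero])
  obtain ⟨g, r, hgr, hr⟩ := exists_sqfree_part q hq0
  have hdeg : q.natDegree = 2 * g.natDegree + r.natDegree := by
    have hg0 : g ≠ 0 := by
      rintro rfl
      exact hq0 (by rw [hgr]; ring)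
    have hr0 : r ≠ 0 := hr.ne_zero
    rw [hgr, natDegree_mul (pow_ne_zero 2 hg0) hr0, natDegree_pow]
  rcases Nat.eq_zero_or_pos r.natDegree with h1 | h1
  · -- a square: the branch is a polynomial
    obtain ⟨c, hc⟩ := natDegree_eq_zero.mp h1
    have hg0 : g.coeff 0 ≠ 0 := by
      intro h
      apply h0
      rw [hgr, mul_coeff_zero, pow_two, mul_coeff_zero, h]
      ring
    have e0 : (PowerSeries.constantCoeff u₀) ^ 2 = g.coeff 0 ^ 2 * c := by
      have := congrArg PowerSeries.constantCoeff hu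
      rw [map_pow, Polynomial.constantCoeff_coe, hgr, mul_coeff_zero, ← hc, coeff_C_zero, pow_two g,
        mul_coeff_zero] at this
      rw [this]
      ring
    have hca : ((PowerSeries.constantCoeff u₀) / g.coeff 0) ^ 2 = c := by
      rw [div_pow, e0]
      field_simp
    obtain ⟨a, ha⟩ : ∃ a : K, a ^ 2 = c := ⟨_, hca⟩
    have hv : (C a * g) ^ 2 = q := by
      rw [hgr, ← hc, ← ha, C_pow]
      ring
    have e1 : u₀ ^ 2 = ((C a * g : K[X]) : PowerSeries K) ^ 2 := by
      rw [hu, ← Polynomial.coe_pow, hv]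
    have e2 : ∃ v : K[X], u₀ = (v : PowerSeries K) ∧ v ^ 2 = q := by
      rcases sq_eq_sq_iff_eq_or_eq_neg.mp e1 with h | h
      · exact ⟨C a * g, h, hv⟩
      · refine ⟨-(C a * g), ?_, by rw [neg_sq, hv]⟩
        rw [h]
        push_cast
        ring
    obtain ⟨v, hv, hvq⟩ := e2
    refine ⟨K, inferInstance, inferInstance, inferInstance, fun A B hAB => ?_⟩
    have hne : A + B * v ≠ 0 := by
      intro h
      apply hAB
      rw [hv, ← Polynomial.coe_mul, ← Polynomial.coe_add, h, Polynomial.coe_zero]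
    obtain ⟨s, hs⟩ := Polynomial.exists_eval_ne_zero_of_natDegree_lt_card (A + B * v) hne
      (lt_of_lt_of_le (Cardinal.natCast_lt_aleph0) (Cardinal.aleph0_le_mk K))
    refine ⟨s, v.eval s, ?_, ?_, ?_⟩
    · rw [← hvq]
      simp
    · simpa using hs
    · intro A' B' h
      have h1 : A' + B' * v = 0 := by
        rw [hv, ← Polynomial.coe_mul, ← Polynomial.coe_add] at h
        exact Polynomial.coe_eq_zero_iff.mp h
      have h2 := congrArg (Polynomial.eval s) h1
      simpa using h2
  · have hsep : r.Separable := (PerfectField.separable_iff_squarefree).mpr hr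
    obtain ⟨L, iL, aL, hfin, hL⟩ := exists_points K r hsep h1 (by omega)
    refine ⟨L, iL, aL, hfin, fun A B hAB => ?_⟩
    have key : ∀ A B : K[X], A ^ 2 - B ^ 2 * q = 0 → A = 0 ∧ B = 0 := by
      intro A B h
      have h5 : A ^ 2 = (B * g) ^ 2 * r := by
        rw [hgr] at h
        linear_combination h
      obtain ⟨h6, h7⟩ := eq_zero_of_sq_eq r hr h1 A (B * g) h5
      have hg0 : g ≠ 0 := by
        rintro rfl
        exact hq0 (by rw [hgr]; ring)
      exact ⟨h6, (mul_eq_zero.mp h7).resolve_right hg0⟩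
    have hN : A ^ 2 - B ^ 2 * q ≠ 0 := by
      intro h
      obtain ⟨h6, h8⟩ := key A B h
      apply hAB
      rw [h6, h8, Polynomial.coe_zero]
      ring
    obtain ⟨s, v, hv, hs⟩ := hL _ hN
    refine ⟨s, aeval s g * v, ?_, ?_, ?_⟩
    rotate_left 2
    · intro A' B' h
      have h3 : A' ^ 2 - B' ^ 2 * q = 0 := by
        apply Polynomial.coe_eq_zero_iff.mp
        rw [Polynomial.coe_sub, Polynomial.coe_mul, Polynomial.coe_pow, Polynomial.coe_pow, ← hu]
        linear_combination ((A' : PowerSeries K) - (B' : PowerSeries K) * u₀) * h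
      obtain ⟨h4, h5⟩ := key A' B' h3
      rw [h4, h5, map_zero]
      ring
    · rw [mul_pow, hv, hgr, map_mul, map_pow]
    · intro h
      apply hs
      rw [map_sub, map_mul, map_pow, map_pow, hgr, map_mul, map_pow, ← hv]
      linear_combination (aeval s A - aeval s B * (aeval s g * v)) * h

/-- Points of `U w ^ 2 + V w + W = 0` off the zeros of a function which does not vanish on the
branch `w₀`. -/
theorem conic_points (K : Type u) [Field K] [NumberField K] (U V W : K[X])
    (hU : U.natDegree ≤ 2) (hV : V.natDegree ≤ 2) (hW : W.natDegree ≤ 2) (w₀ : PowerSeries K)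
    (hw : (U : PowerSeries K) * w₀ ^ 2 + (V : PowerSeries K) * w₀ + (W : PowerSeries K) = 0)
    (hU0 : U ≠ 0) (h0 : V.coeff 0 ^ 2 - 4 * U.coeff 0 * W.coeff 0 ≠ 0) :
    ∃ (L : Type u) (_ : Field L) (_ : Algebra K L), FiniteDimensional K L ∧
      ∀ P : K[X][X], P.eval₂ (Polynomial.coeToPowerSeries.ringHom (R := K)) w₀ ≠ 0 →
        ∃ s w : L, aeval s U ≠ 0 ∧ aeval s U * w ^ 2 + aeval s V * w + aeval s W = 0 ∧
          P.eval₂ (aeval s : K[X] →ₐ[K] L).toRingHom w ≠ 0 ∧
          ∀ P' : K[X][X], P'.eval₂ (Polynomial.coeToPowerSeries.ringHom (R := K)) w₀ = 0 →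
            P'.eval₂ (aeval s : K[X] →ₐ[K] L).toRingHom w = 0 := by
  set D : K[X] := V ^ 2 - 4 * U * W with hD
  have hDdeg : D.natDegree ≤ 4 := by
    have h4 : (4 : K[X]) = C 4 := (map_ofNat (C : K →+* K[X]) 4).symm
    refine (natDegree_sub_le _ _).trans (max_le ?_ ?_)
    · refine natDegree_pow_le.trans ?_
      omega
    · refine natDegree_mul_le.trans ?_
      have : (4 * U).natDegree ≤ U.natDegree := by
        rw [h4]
        exact natDegree_C_mul_le _ _
      omega
  have hD0 : D.coeff 0 ≠ 0 := by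
    have h4 : (4 : K[X]) = C 4 := (map_ofNat (C : K →+* K[X]) 4).symm
    have : D.coeff 0 = V.coeff 0 ^ 2 - 4 * U.coeff 0 * W.coeff 0 := by
      rw [hD, coeff_sub, pow_two, mul_coeff_zero, mul_coeff_zero, h4, mul_coeff_zero, coeff_C_zero]
      ring
    rw [this]
    exact h0
  let u₀ : PowerSeries K := 2 * (U : PowerSeries K) * w₀ + (V : PowerSeries K)
  have hu : u₀ ^ 2 = (D : PowerSeries K) := by
    have e4 : ((4 : K[X]) : PowerSeries K) = 4 := map_ofNat (coeToPowerSeries.ringHom (R := K)) 4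
    rw [hD, Polynomial.coe_sub, Polynomial.coe_mul, Polynomial.coe_mul, Polynomial.coe_pow, e4]
    show (2 * (U : PowerSeries K) * w₀ + (V : PowerSeries K)) ^ 2 = _
    linear_combination 4 * (U : PowerSeries K) * hw
  obtain ⟨L, iL, aL, hfin, hL⟩ := branch_points K D hDdeg u₀ hu hD0
  refine ⟨L, iL, aL, hfin, fun P hP => ?_⟩
  obtain ⟨n, A, B, hAB⟩ := reduce U V D P
  have hcz : CharZero L := charZero_of_injective_algebraMap (algebraMap K L).injective
  have huw : (coeToPowerSeries.ringHom (R := K)) (2 * U) * w₀ =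
      u₀ - (coeToPowerSeries.ringHom (R := K)) V := by
    rw [map_mul, map_ofNat]
    show 2 * (U : PowerSeries K) * w₀ = 2 * (U : PowerSeries K) * w₀ + (V : PowerSeries K) - _
    rw [coeToPowerSeries.ringHom_apply]
    ring
  have e1 := hAB (PowerSeries K) (coeToPowerSeries.ringHom (R := K)) u₀ w₀ hu huw
  have hUps : (U : PowerSeries K) ≠ 0 := by
    intro h
    exact hU0 (Polynomial.coe_eq_zero_iff.mp h)
  obtain ⟨s, u, hsu, hs, hrel⟩ := hL (U * A) (U * B) (by
    intro h
    rw [Polynomial.coe_mul, Polynomial.coe_mul] at h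
    simp only [coeToPowerSeries.ringHom_apply] at e1
    have h5 : (U : PowerSeries K) * ((U : PowerSeries K) ^ n *
        P.eval₂ (coeToPowerSeries.ringHom (R := K)) w₀) = 0 := by
      rw [e1]
      linear_combination h
    rcases mul_eq_zero.mp h5 with h6 | h6
    · exact hUps h6
    · rcases mul_eq_zero.mp h6 with h7 | h7
      · exact pow_ne_zero n hUps h7
      · exact hP h7)
  have hUs : aeval s U ≠ 0 := by
    intro h
    apply hs
    rw [map_mul, map_mul, h]
    ring
  have hw' : (2 * aeval s U) * ((u - aeval s V) / (2 * aeval s U)) = u - aeval s V :=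
    mul_div_cancel₀ _ (mul_ne_zero two_ne_zero hUs)
  have hw'' : (aeval s : K[X] →ₐ[K] L).toRingHom (2 * U) *
      ((u - aeval s V) / (2 * aeval s U)) = u - (aeval s : K[X] →ₐ[K] L).toRingHom V := by
    show aeval s (2 * U) * _ = u - aeval s V
    rw [map_mul, map_ofNat]
    exact hw'
  have e2 := hAB L (aeval s : K[X] →ₐ[K] L).toRingHom u ((u - aeval s V) / (2 * aeval s U))
    hsu hw''
  refine ⟨s, (u - aeval s V) / (2 * aeval s U), hUs, ?_, ?_, ?_⟩
  rotate_left 2
  · intro P' hP'
    obtain ⟨m, A', B', hAB'⟩ := reduce U V D P'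
    have e3 := hAB' (PowerSeries K) (coeToPowerSeries.ringHom (R := K)) u₀ w₀ hu huw
    have e4 := hAB' L (aeval s : K[X] →ₐ[K] L).toRingHom u ((u - aeval s V) / (2 * aeval s U))
      hsu hw''
    rw [hP', mul_zero] at e3
    have e5 := hrel A' B' e3.symm
    have e6 : (aeval s : K[X] →ₐ[K] L).toRingHom A' +
        (aeval s : K[X] →ₐ[K] L).toRingHom B' * u = 0 := e5
    rw [e6] at e4
    exact (mul_eq_zero.mp e4).resolve_left (pow_ne_zero m hUs)
  · set w := (u - aeval s V) / (2 * aeval s U) with hwdef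
    have e3 : u ^ 2 = aeval s V ^ 2 - 4 * aeval s U * aeval s W := by
      rw [hsu, hD, map_sub, map_mul, map_mul, map_pow, map_ofNat]
    have e5 : 4 * aeval s U * (aeval s U * w ^ 2 + aeval s V * w + aeval s W) = 0 := by
      have e6 : 2 * aeval s U * w + aeval s V = u := by rw [hw']; ring
      have : (2 * aeval s U * w + aeval s V) ^ 2 = aeval s V ^ 2 - 4 * aeval s U * aeval s W := by
        rw [e6, e3]
      linear_combination this
    exact (mul_eq_zero.mp e5).resolve_left (mul_ne_zero (by norm_num) hUs)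
  · intro h
    apply hs
    rw [h, mul_zero] at e2
    have e3 : aeval s A + aeval s B * u = 0 := e2.symm
    rw [map_mul, map_mul]
    linear_combination aeval s U * e3

end Pool.Agent.Helper63.NPD
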