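import Pool.Agent.Helper63.NPD.ZBranch
import Pool.Agent.Helper63.NPD.ZRoot

/-!
# Homomorphisms of the coordinate ring of the branch
-/

set_option autoImplicit false

namespace Pool.Agent.Helper63.NPD

open Polynomial

universe u

/-- The ring `K[s, w₀]` of the branch `w₀` of the curve `U w ^ 2 + V w + W = 0` has many
homomorphisms to a finite extension of `K`. -/
theorem exists_homs (K : Type u) [Field K] [NumberField K] (U V W : K[X])
    (hU : U.natDegree ≤ 2) (hV : V.natDegree ≤ 2) (hW : W.natDegree ≤ 2) (w₀ : PowerSeries K)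
    (hw : (U : PowerSeries K) * w₀ ^ 2 + (V : PowerSeries K) * w₀ + (W : PowerSeries K) = 0)
    (hU0 : U ≠ 0) (h0 : V.coeff 0 ^ 2 - 4 * U.coeff 0 * W.coeff 0 ≠ 0) :
    ∃ (L : Type u) (_ : Field L) (_ : Algebra K L), FiniteDimensional K L ∧
      ∀ a : Algebra.adjoin K {(PowerSeries.X : PowerSeries K), w₀}, a ≠ 0 →
        ∃ φ : Algebra.adjoin K {(PowerSeries.X : PowerSeries K), w₀} →ₐ[K] L, φ a ≠ 0 := by
  obtain ⟨L, iL, aL, hfin, hL⟩ := conic_points K U V W hU hV hW w₀ hw hU0 h0
  refine ⟨L, iL, aL, hfin, fun a ha => ?_⟩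
  -- polynomials in two variables
  let toP : MvPolynomial (Fin 2) K →ₐ[K] K[X][X] :=
    MvPolynomial.aeval ![(C X : K[X][X]), (X : K[X][X])]
  have h1 : ∀ p : MvPolynomial (Fin 2) K, (toP p).eval₂ (coeToPowerSeries.ringHom (R := K)) w₀ =
      MvPolynomial.aeval ![(PowerSeries.X : PowerSeries K), w₀] p := by
    intro p
    have e : (Polynomial.eval₂RingHom (coeToPowerSeries.ringHom (R := K)) w₀).comp toP.toRingHom =
        (MvPolynomial.aeval ![(PowerSeries.X : PowerSeries K), w₀]).toRingHom := by
      apply MvPolynomial.ringHom_ext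
      · intro r
        have e1 : toP (MvPolynomial.C r) = C (C r) := by
          rw [MvPolynomial.algHom_C]
          rfl
        show (toP (MvPolynomial.C r)).eval₂ _ _ = MvPolynomial.aeval _ (MvPolynomial.C r)
        rw [e1, eval₂_C, MvPolynomial.algHom_C, coeToPowerSeries.ringHom_apply, Polynomial.coe_C]
        rfl
      · intro i
        show (toP (MvPolynomial.X i)).eval₂ _ _ = MvPolynomial.aeval _ (MvPolynomial.X i)
        rw [MvPolynomial.aeval_X, MvPolynomial.aeval_X]
        fin_cases i
        · simp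
        · simp
    exact congrArg (fun f : MvPolynomial (Fin 2) K →+* PowerSeries K => f p) e
  have h2 : ∀ (s w : L) (p : MvPolynomial (Fin 2) K),
      (toP p).eval₂ (aeval s : K[X] →ₐ[K] L).toRingHom w =
      MvPolynomial.aeval ![s, w] p := by
    intro s w p
    have e : (Polynomial.eval₂RingHom (aeval s : K[X] →ₐ[K] L).toRingHom w).comp toP.toRingHom =
        (MvPolynomial.aeval ![s, w]).toRingHom := by
      apply MvPolynomial.ringHom_ext
      · intro r
        have e1 : toP (MvPolynomial.C r) = C (C r) := by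
          rw [MvPolynomial.algHom_C]
          rfl
        show (toP (MvPolynomial.C r)).eval₂ _ _ = MvPolynomial.aeval _ (MvPolynomial.C r)
        rw [e1, eval₂_C, MvPolynomial.algHom_C]
        show aeval s (C r) = _
        rw [aeval_C]
      · intro i
        show (toP (MvPolynomial.X i)).eval₂ _ _ = MvPolynomial.aeval _ (MvPolynomial.X i)
        rw [MvPolynomial.aeval_X, MvPolynomial.aeval_X]
        fin_cases i
        · simp
        · simp
    exact congrArg (fun f : MvPolynomial (Fin 2) K →+* L => f p) e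
  let A := Algebra.adjoin K {(PowerSeries.X : PowerSeries K), w₀}
  let v : Fin 2 → PowerSeries K := ![(PowerSeries.X : PowerSeries K), w₀]
  have hv : ∀ i, v i ∈ A := by
    intro i
    fin_cases i
    · exact Algebra.subset_adjoin (Set.mem_insert _ _)
    · exact Algebra.subset_adjoin (Set.mem_insert_of_mem _ rfl)
  let v' : Fin 2 → A := fun i => ⟨v i, hv i⟩
  let π : MvPolynomial (Fin 2) K →ₐ[K] A := MvPolynomial.aeval v'
  have hπv : ∀ p, ((π p : A) : PowerSeries K) = MvPolynomial.aeval v p := by
    intro p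
    have := MvPolynomial.comp_aeval_apply v' A.val p
    exact this
  have hπ : Function.Surjective π := by
    intro z
    have hz : (z : PowerSeries K) ∈ (MvPolynomial.aeval v : MvPolynomial (Fin 2) K →ₐ[K] _).range := by
      rw [← Algebra.adjoin_range_eq_range_aeval]
      have : Set.range v = {(PowerSeries.X : PowerSeries K), w₀} := by
        simp [v, Set.pair_comm]
      rw [this]
      exact z.2
    obtain ⟨p, hp⟩ := hz
    exact ⟨p, Subtype.ext ((hπv p).trans hp)⟩
  obtain ⟨p, hp⟩ := hπ a
  obtain ⟨s, w, -, -, hne, hrel⟩ := hL (toP p) (by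
    rw [h1]
    intro h
    apply ha
    rw [← hp]
    apply Subtype.ext
    rw [hπv]
    exact h)
  rw [h2] at hne
  have hker : ∀ z : MvPolynomial (Fin 2) K, π z = 0 → MvPolynomial.aeval ![s, w] z = 0 := by
    intro z hz
    rw [← h2]
    apply hrel
    rw [h1]
    have := hπv z
    rw [hz] at this
    exact this.symm
  let e := Ideal.quotientKerAlgEquivOfSurjective hπ
  let ψ : (MvPolynomial (Fin 2) K ⧸ RingHom.ker π) →ₐ[K] L :=
    Ideal.Quotient.liftₐ (RingHom.ker π) (MvPolynomial.aeval ![s, w]) (fun z hz => hker z hz)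
  refine ⟨ψ.comp e.symm.toAlgHom, ?_⟩
  have h3 : e.symm a = Ideal.Quotient.mk _ p := by
    rw [AlgEquiv.symm_apply_eq, ← hp]
    rfl
  show ψ (e.symm a) ≠ 0
  rw [h3]
  exact hne

end Pool.Agent.Helper63.NPD
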