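import Pool.Agent.Helper63.NPD.ZBranch
import Pool.Agent.Helper63.NPD.ZRoot
import Pool.Agent.Helper37.RP.Pr2

/-!
# The curve `Z` of genus one in the normal form, and its points over a finite extension
-/

set_option autoImplicit false

namespace Pool.Agent.Helper63.NPD

open Polynomial Pool.Agent.Helper37.RP

universe u

/-- The first coordinates of a point of the curve. -/
def zx {R : Type*} [CommRing R] (s : R) : Fin 4 → R := ![1, s, 0, 0]

/-- The second coordinates of a point of the curve. -/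
def zy {R : Type*} [CommRing R] (s w : R) : Fin 4 → R := ![1, -(s ^ 2 * w), -s, s * w]

theorem map_zx {R S : Type*} [CommRing R] [CommRing S] (φ : R →+* S) (s : R) (i : Fin 4) :
    φ (zx s i) = zx (φ s) i := by
  fin_cases i <;> simp [zx]

theorem map_zy {R S : Type*} [CommRing R] [CommRing S] (φ : R →+* S) (s w : R) (i : Fin 4) :
    φ (zy s w i) = zy (φ s) (φ w) i := by
  fin_cases i <;> simp [zy]

section

variable {R : Type u} [CommRing R]

/-- The coefficient of `w ^ 2`. -/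
noncomputable def zU (Q : Fin 4 → Fin 4 → Fin 4 → Fin 4 → R) : R[X] :=
  C (Q 0 0 3 3) + C (-2 * Q 0 0 1 3 + 2 * Q 0 1 3 3) * X +
    C (Q 0 0 1 1 - 4 * Q 0 1 1 3 + Q 1 1 3 3) * X ^ 2

/-- The coefficient of `w`. -/
noncomputable def zV (Q : Fin 4 → Fin 4 → Fin 4 → Fin 4 → R) : R[X] :=
  C (-2 * Q 0 0 2 3 + 4 * Q 0 1 0 3) +
    C (2 * Q 0 0 1 2 - 4 * Q 0 1 0 1 - 4 * Q 0 1 2 3 + 2 * Q 1 1 0 3) * X +
    C (4 * Q 0 1 1 2 - 2 * Q 1 1 2 3) * X ^ 2

/-- The constant coefficient. -/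
noncomputable def zW (Q : Fin 4 → Fin 4 → Fin 4 → Fin 4 → R) : R[X] :=
  C (Q 0 0 2 2 - 4 * Q 0 1 0 2 + Q 1 1 0 0) + C (2 * Q 0 1 2 2 - 2 * Q 1 1 0 2) * X +
    C (Q 1 1 2 2) * X ^ 2

theorem natDegree_quad_le (a b c : R) : (C a + C b * X + C c * X ^ 2 : R[X]).natDegree ≤ 2 := by
  refine (natDegree_add_le _ _).trans (max_le ((natDegree_add_le _ _).trans (max_le ?_ ?_)) ?_)
  · rw [natDegree_C]
    omega
  · exact ((natDegree_C_mul_le b X).trans natDegree_X_le).trans (by omega)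
  · exact natDegree_C_mul_X_pow_le c 2

theorem coeff_zero_quad (a b c : R) : (C a + C b * X + C c * X ^ 2 : R[X]).coeff 0 = a := by
  simp

/-- The conditions on the coefficients of the normal form which are used for the curve. -/
structure ZForm (L L' : Matrix (Fin 4) (Fin 4) R) (Q : Fin 4 → Fin 4 → Fin 4 → Fin 4 → R) :
    Prop where
  l0 : ∀ j, L 0 j = if j = 1 then 1 else 0
  l1 : ∀ j, L 1 j = if j = 3 then 1 else 0
  l0' : ∀ j, L' 0 j = if j = 2 then 1 else 0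
  l1' : ∀ j, L' 1 j = if j = 0 then 1 else 0
  sy : ∀ i j k l, Q i j k l = Q j i k l
  sy' : ∀ i j k l, Q i j k l = Q i j l k
  q00 : ∀ k, Q 0 0 0 k = 0
  q11 : ∀ k, Q 1 1 1 k = 0
  q01 : Q 0 1 1 1 = 0
  q01' : Q 0 1 0 0 = 0

variable {L L' : Matrix (Fin 4) (Fin 4) R} {Q : Fin 4 → Fin 4 → Fin 4 → Fin 4 → R}

theorem ZForm.onL (h : ZForm L L' Q) {S : Type*} [CommRing S] [Algebra R S] (s w : S) :
    OnL L (zx s) (zy s w) := by
  simp only [OnL, Fin.sum_univ_four, zx, zy, Matrix.cons_val_zero, Matrix.cons_val_one,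
    Matrix.cons_val]
  rw [h.l0, h.l0, h.l0, h.l0, h.l1, h.l1, h.l1, h.l1]
  simp
  ring

theorem ZForm.onL' (h : ZForm L L' Q) {S : Type*} [CommRing S] [Algebra R S] (s w : S) :
    OnL L' (zx s) (zy s w) := by
  simp only [OnL, Fin.sum_univ_four, zx, zy, Matrix.cons_val_zero, Matrix.cons_val_one,
    Matrix.cons_val]
  rw [h.l0', h.l0', h.l0', h.l0', h.l1', h.l1', h.l1', h.l1']
  simp

theorem ZForm.onQ (h : ZForm L L' Q) {S : Type*} [CommRing S] [Algebra R S] (s w : S)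
    (hw : aeval s (zU Q) * w ^ 2 + aeval s (zV Q) * w + aeval s (zW Q) = 0) :
    OnQ Q (zx s) (zy s w) := by
  have e1 : ∀ i j k l, algebraMap R S (Q i j k l) = algebraMap R S (Q j i k l) := fun i j k l => by
    rw [h.sy]
  have e2 : ∀ i j k l, algebraMap R S (Q i j k l) = algebraMap R S (Q i j l k) := fun i j k l => by
    rw [h.sy']
  have e3 : ∀ k, algebraMap R S (Q 0 0 0 k) = 0 := fun k => by rw [h.q00, map_zero]
  have e4 : ∀ k, algebraMap R S (Q 1 1 1 k) = 0 := fun k => by rw [h.q11, map_zero]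
  have e5 : algebraMap R S (Q 0 1 1 1) = 0 := by rw [h.q01, map_zero]
  have e6 : algebraMap R S (Q 0 1 0 0) = 0 := by rw [h.q01', map_zero]
  have hw2 : s ^ 2 * (aeval s (zU Q) * w ^ 2 + aeval s (zV Q) * w + aeval s (zW Q)) = 0 := by
    rw [hw, mul_zero]
  unfold OnQ
  rw [← hw2]
  simp only [zU, zV, zW, map_add, map_mul, map_sub, map_neg, map_pow, aeval_C, aeval_X, map_ofNat,
    Fin.sum_univ_four, zx, zy, Matrix.cons_val_zero, Matrix.cons_val_one, Matrix.cons_val]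
  rw [e1 1 0, e1 1 0, e1 1 0, e1 1 0, e1 1 0, e1 1 0, e1 1 0, e1 1 0, e1 1 0, e1 1 0, e1 1 0,
    e1 1 0, e1 1 0, e1 1 0, e1 1 0, e1 1 0]
  rw [e2 0 0 1 0, e2 0 0 2 0, e2 0 0 3 0, e2 0 0 2 1, e2 0 0 3 1, e2 0 0 3 2,
    e2 1 1 1 0, e2 1 1 2 0, e2 1 1 3 0, e2 1 1 2 1, e2 1 1 3 1, e2 1 1 3 2,
    e2 0 1 1 0, e2 0 1 2 0, e2 0 1 3 0, e2 0 1 2 1, e2 0 1 3 1, e2 0 1 3 2]
  rw [e3, e3, e3, e3, e4, e4, e4, e5, e6]
  have e7 : algebraMap R S (Q 1 1 0 1) = 0 := by rw [h.sy', h.q11, map_zero]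
  rw [e7]
  ring

end

end Pool.Agent.Helper63.NPD
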