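import Pool.Agent.Helper15.Final2
import Pool.Agent.Helper63.NPD.ZAlg

/-!
# Points of a curve `y ^ 2 = q(x)` of genus at most one over a finite extension
-/

set_option autoImplicit false

namespace Pool.Agent.Helper63.NPD

open Polynomial Pool.Agent.Helper15 Pool.Agent.Helper15.Curve Pool.Agent.Helper15.LemR
  Pool.Agent.Helper15.EC Pool.Agent.Helper15.Engine Pool.Agent.Helper15.Final Filter Topology

universe u

theorem exists_hom (K : Type u) [Field K] [NumberField K] (E : Type u) [Field E] [Algebra K E]
    (hfg : (⊤ : IntermediateField K E).FG) (x y : E) (q : (⊥ : IntermediateField K E)[X])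
    (h : IsQuartic (⊥ : IntermediateField K E) x y q) (A₀ : Finset E) :
    ∃ (L : Type u) (_ : Field L) (_ : Algebra K L), FiniteDimensional K L ∧
      ∀ a : Algebra.adjoin K (A₀ : Set E), a ≠ 0 →
        ∃ φ : Algebra.adjoin K (A₀ : Set E) →ₐ[K] L, φ a ≠ 0 := by
  classical
  have hess : Algebra.EssFiniteType K E := IntermediateField.fg_top_iff.mp hfg
  obtain ⟨G, hG⟩ := hfg
  have hKc : Countable K := Emb.countable_numberField K
  have hEc : Countable E := Emb.countable_of_fg K E G hG
  have : Algebra.IsAlgebraic ℚ K := inferInstance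
  let ι₀ : K →ₐ[ℚ] PadicAlgCl 2 := IsAlgClosed.lift
  let _ : Algebra K (PadicAlgCl 2) := ι₀.toRingHom.toAlgebra
  obtain ⟨τ⟩ := Emb.exists_embedding K E (PadicAlgCl 2) G hG
  obtain ⟨D, hDx, hDB, hDy⟩ := h.exists_der
  have hB : ∀ e : E, (∀ i : Unit, e ∈ (fun _ : Unit => (⊥ : IntermediateField K E)) i) →
      IsAlgebraic K e := by
    intro e he
    obtain ⟨c, rfl⟩ := IntermediateField.mem_bot.mp (he ())
    exact isAlgebraic_algebraMap c
  obtain ⟨L, hL, hLd⟩ := density τ G hG (fun _ : Unit => (⊥ : IntermediateField K E))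
    (fun _ => D) (fun _ => h.supply τ G hG D hDx (fun b hb => (hDB b).mpr hb) hDy)
    (fun D' => gen_all_quartic (τ : E →+* PadicAlgCl 2)
      (fun _ : Unit => (⊥ : IntermediateField K E)) (fun _ => x) (fun _ => y) (fun _ => q)
      (fun _ => h) (fun _ => D) (fun _ => hDx) (fun _ => hDB) hB D') A₀
  let ψ : L →ₐ[K] AlgebraicClosure K := IsAlgClosed.lift
  let e : L ≃ₐ[K] ψ.fieldRange := AlgEquiv.ofInjectiveField ψ
  refine ⟨ψ.fieldRange, inferInstance, inferInstance, e.toLinearEquiv.finiteDimensional, ?_⟩
  intro a ha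
  by_contra hcon
  push Not at hcon
  apply ha
  refine hLd a fun φ => ?_
  have h2 := hcon ((e : L →ₐ[K] ψ.fieldRange).comp φ)
  have h3 : e (φ a) = 0 := h2
  exact (map_eq_zero e).mp h3

/-- A curve `y ^ 2 = q(x)` with `q` separable of degree one to four has infinitely many points
over a finite extension. -/
theorem exists_points (K : Type u) [Field K] [NumberField K] (q : K[X]) (hq : q.Separable)
    (h1 : 1 ≤ q.natDegree) (h4 : q.natDegree ≤ 4) :
    ∃ (L : Type u) (_ : Field L) (_ : Algebra K L), FiniteDimensional K L ∧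
      ∀ N : K[X], N ≠ 0 → ∃ s u : L, u ^ 2 = aeval s q ∧ aeval s N ≠ 0 := by
  classical
  let Ω := AlgebraicClosure (RatFunc K)
  let x₀ : Ω := algebraMap (RatFunc K) Ω RatFunc.X
  obtain ⟨y₀, hy₀⟩ : ∃ y₀ : Ω, y₀ ^ 2 = aeval x₀ q :=
    IsAlgClosed.exists_pow_nat_eq _ (by norm_num)
  have hx₀ : Transcendental K x₀ := by
    have hX : Transcendental K (RatFunc.X : RatFunc K) := by
      rw [← RatFunc.algebraMap_X]
      exact (transcendental_algebraMap_iff (IsFractionRing.injective K[X] (RatFunc K))).mpr
        (Polynomial.transcendental_X K)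
    exact (transcendental_algebraMap_iff (algebraMap (RatFunc K) Ω).injective).mpr hX
  let E : IntermediateField K Ω := IntermediateField.adjoin K {x₀, y₀}
  let x : E := ⟨x₀, IntermediateField.subset_adjoin K _ (by simp)⟩
  let y : E := ⟨y₀, IntermediateField.subset_adjoin K _ (by simp)⟩
  have htop : IntermediateField.adjoin K ({x, y} : Set E) = ⊤ := by
    apply IntermediateField.lift_injective E
    rw [IntermediateField.lift_adjoin, IntermediateField.lift_top]
    show IntermediateField.adjoin K ((fun z : E => (z : Ω)) '' {x, y}) = E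
    rw [Set.image_pair]
  have hfg : (⊤ : IntermediateField K E).FG := ⟨{x, y}, by
    rw [Finset.coe_insert, Finset.coe_singleton]; exact htop⟩
  have hx : Transcendental K x := by
    have : Transcendental K (algebraMap E Ω x) := hx₀
    exact (transcendental_algebraMap_iff (algebraMap E Ω).injective).mp this
  let i : K →+* (⊥ : IntermediateField K E) := algebraMap K _
  have hquart : IsQuartic (⊥ : IntermediateField K E) x y (q.map i) := by
    refine ⟨?_, hq.map, ?_, ?_, ?_, ?_⟩
    · intro hal
      apply hx
      have : Algebra.IsAlgebraic K (⊥ : IntermediateField K E) := inferInstance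
      exact hal.restrictScalars K
    · rw [natDegree_map]; exact h1
    · rw [natDegree_map]; exact h4
    · apply Subtype.ext
      rw [aeval_map_algebraMap]
      have e1 : ((aeval x q : E) : Ω) = aeval x₀ q := by
        have := aeval_algebraMap_apply Ω x q
        exact this.symm
      rw [e1, ← hy₀]
      rfl
    · rw [← IntermediateField.restrictScalars_eq_top_iff (K := K),
        IntermediateField.restrictScalars_adjoin]
      rw [eq_top_iff, ← htop]
      exact IntermediateField.adjoin.mono K _ _ (Set.subset_union_right)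
  obtain ⟨L, iL, aL, hfin, hL⟩ := exists_hom K E hfg x y _ hquart {x, y}
  refine ⟨L, iL, aL, hfin, fun N hN => ?_⟩
  let B := Algebra.adjoin K ((({x, y} : Finset E) : Set E))
  let x' : B := ⟨x, Algebra.subset_adjoin (by simp)⟩
  let y' : B := ⟨y, Algebra.subset_adjoin (by simp)⟩
  have e2 : ∀ P : K[X], ((aeval x' P : B) : E) = aeval x P := fun P => by
    have := aeval_algebraMap_apply E x' P
    exact this.symm
  have hyB : y' ^ 2 = aeval x' q := by
    apply Subtype.ext
    rw [e2]
    have := hquart.eqn
    rw [aeval_map_algebraMap] at this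
    exact this
  obtain ⟨φ, hφ⟩ := hL (aeval x' N) (by
    intro h0
    have h5 : ((aeval x' N : B) : E) = ((0 : B) : E) := congrArg (fun b : B => (b : E)) h0
    rw [e2] at h5
    exact hx ⟨N, hN, h5⟩)
  refine ⟨φ x', φ y', ?_, ?_⟩
  · rw [← map_pow, hyB, ← aeval_algHom_apply]
  · rw [aeval_algHom_apply]
    exact hφ

end Pool.Agent.Helper63.NPD
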